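import Mathlib

set_option autoImplicit false

namespace Pool.Agent.MP_0a9cf0_an

open Real Complex SchwartzMap

/-- iterated derivatives of `t ↦ exp (c t)` on the real line. -/
theorem iteratedDeriv_cexp_real (n : ℕ) (c : ℂ) :
    (iteratedDeriv n fun s : ℝ => Complex.exp (c * s)) = fun s : ℝ => c ^ n * Complex.exp (c * s) := by
  induction n with
  | zero => simp
  | succ n ih =>
    rw [iteratedDeriv_succ, ih]
    funext t
    have h1 : HasDerivAt (fun s : ℝ => c * (s : ℂ)) (c * 1) t := by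
      exact (HasDerivAt.ofReal_comp (hasDerivAt_id t)).const_mul c
    have h2 := (h1.cexp).const_mul (c ^ n)
    rw [h2.deriv]
    ring

theorem contDiff_cexp_real (c : ℂ) {n : WithTop ℕ∞} :
    ContDiff ℝ n (fun s : ℝ => Complex.exp (c * s)) := by
  have h : ContDiff ℝ n (fun s : ℝ => c * (s : ℂ)) := by
    exact contDiff_const.mul Complex.ofRealCLM.contDiff
  exact h.cexp

/-- `t ↦ exp (c t)` with purely imaginary `c` has temperate growth. -/
theorem hasTemperateGrowth_cexp_real (c : ℂ) (hc : c.re = 0) :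
    Function.HasTemperateGrowth (fun s : ℝ => Complex.exp (c * s)) := by
  refine ⟨contDiff_cexp_real c, fun n => ⟨0, ‖c‖ ^ n, fun x => ?_⟩⟩
  rw [norm_iteratedFDeriv_eq_norm_iteratedDeriv, iteratedDeriv_cexp_real]
  simp only [norm_mul, norm_pow, Complex.norm_exp, pow_zero, mul_one]
  have : (c * (x : ℂ)).re = 0 := by simp [hc]
  rw [this, Real.exp_zero, mul_one]

/-- The one dimensional cut-off exponential. -/
noncomputable def hfun (t : ℝ) : ℂ :=
  ((Real.smoothTransition (t + 1) : ℝ) : ℂ) * Complex.exp ((-(π : ℂ)) * t)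

theorem hfun_contDiff {n : ℕ∞} : ContDiff ℝ n hfun := by
  unfold hfun
  refine ContDiff.mul ?_ (contDiff_cexp_real _)
  refine Complex.ofRealCLM.contDiff.comp ?_
  exact Real.smoothTransition.contDiff.comp (contDiff_id.add contDiff_const)

theorem hfun_of_nonneg {t : ℝ} (ht : 0 ≤ t) : hfun t = Complex.exp ((-(π : ℂ)) * t) := by
  unfold hfun
  rw [Real.smoothTransition.one_of_one_le (by linarith)]
  simp

theorem iteratedDeriv_hfun_pos (n : ℕ) {t : ℝ} (ht : 0 < t) :
    iteratedDeriv n hfun t = (-(π : ℂ)) ^ n * Complex.exp ((-(π : ℂ)) * t) := by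
  have h1 : hfun =ᶠ[nhds t] fun s : ℝ => Complex.exp ((-(π : ℂ)) * s) := by
    filter_upwards [lt_mem_nhds ht] with s hs
    exact hfun_of_nonneg hs.le
  have h2 := h1.iteratedDeriv_eq n
  rw [h2, iteratedDeriv_cexp_real]

theorem iteratedDeriv_hfun_neg (n : ℕ) {t : ℝ} (ht : t < -1) :
    iteratedDeriv n hfun t = 0 := by
  have h1 : hfun =ᶠ[nhds t] fun _ : ℝ => (0 : ℂ) := by
    filter_upwards [gt_mem_nhds ht] with s hs
    unfold hfun
    rw [Real.smoothTransition.zero_of_nonpos (by linarith)]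
    simp
  have h2 := h1.iteratedDeriv_eq n
  rw [h2]
  simp

theorem hfun_decay (k n : ℕ) : ∃ C : ℝ, ∀ x : ℝ, ‖x‖ ^ k * ‖iteratedFDeriv ℝ n hfun x‖ ≤ C := by
  simp only [norm_iteratedFDeriv_eq_norm_iteratedDeriv]
  have hcont : Continuous (fun x : ℝ => ‖x‖ ^ k * ‖iteratedDeriv n hfun x‖) := by
    have h1 : Continuous (iteratedDeriv n hfun) :=
      (hfun_contDiff (n := n)).continuous_iteratedDeriv n le_rfl
    fun_prop
  obtain ⟨C, hC⟩ := (isCompact_Icc (a := (-1 : ℝ)) (b := 0)).exists_bound_of_continuousOn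
    hcont.continuousOn
  refine ⟨max C (π ^ n * (k.factorial / π ^ k)), fun x => ?_⟩
  rcases lt_or_ge x (-1) with hx | hx
  · rw [iteratedDeriv_hfun_neg n hx]
    simp only [norm_zero, mul_zero]
    apply le_max_of_le_right
    positivity
  · rcases le_or_gt x 0 with hx0 | hx0
    · apply le_max_of_le_left
      have := hC x ⟨hx, hx0⟩
      exact le_trans (le_abs_self _) this
    · apply le_max_of_le_right
      rw [iteratedDeriv_hfun_pos n hx0]
      have h3 : ‖(-(π : ℂ)) ^ n * Complex.exp ((-(π : ℂ)) * x)‖ = π ^ n * Real.exp (-(π * x)) := by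
        rw [norm_mul, norm_pow, norm_neg, Complex.norm_exp]
        simp [abs_of_pos Real.pi_pos]
      rw [h3, Real.norm_eq_abs, abs_of_pos hx0]
      have h4 : (π * x) ^ k / k.factorial ≤ Real.exp (π * x) :=
        Real.pow_div_factorial_le_exp (π * x) (by positivity) k
      have h5 : x ^ k * Real.exp (-(π * x)) ≤ k.factorial / π ^ k := by
        rw [Real.exp_neg, le_div_iff₀ (by positivity), ← div_eq_mul_inv, div_mul_eq_mul_div,
          div_le_iff₀ (Real.exp_pos _), ← mul_pow, mul_comm x π]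
        rw [div_le_iff₀ (by positivity)] at h4
        linarith
      calc x ^ k * (π ^ n * Real.exp (-(π * x))) = π ^ n * (x ^ k * Real.exp (-(π * x))) := by ring
        _ ≤ π ^ n * (k.factorial / π ^ k) := by gcongr

/-- The one dimensional cut-off exponential as a Schwartz function. -/
noncomputable def hS : 𝓢(ℝ, ℂ) where
  toFun := hfun
  smooth' := hfun_contDiff
  decay' := hfun_decay

variable {E : Type*} [NormedAddCommGroup E] [InnerProductSpace ℝ E]

/-- The Gaussian `exp (-π ‖x‖²)` as a Schwartz function. -/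
noncomputable def gauss : 𝓢(E, ℂ) :=
  SchwartzMap.compCLM ℂ (g := fun x : E => ‖x‖ ^ 2) (Function.hasTemperateGrowth_norm_sq E)
    ⟨1, 1, fun x => by
      rw [pow_one, one_mul, Real.norm_eq_abs, abs_of_nonneg (sq_nonneg _)]
      nlinarith [sq_nonneg (‖x‖ - 1)]⟩ hS

theorem gauss_apply (x : E) : (gauss : 𝓢(E, ℂ)) x = Complex.exp (-(π : ℂ) * ((‖x‖ ^ 2 : ℝ) : ℂ)) := by
  unfold gauss
  rw [SchwartzMap.compCLM_apply]
  change hfun (‖x‖ ^ 2) = _
  rw [hfun_of_nonneg (sq_nonneg _)]

/-- The wave packet `exp (-π ‖x - a‖² + 2 π i ⟨a, x⟩)`. -/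
noncomputable def pk (a x : E) : ℂ :=
  Complex.exp (-(π : ℂ) * ((‖x - a‖ ^ 2 : ℝ) : ℂ) + 2 * π * Complex.I * ((inner ℝ a x : ℝ) : ℂ))

theorem hasTemperateGrowth_char (a : E) :
    Function.HasTemperateGrowth
      (fun x : E => Complex.exp (2 * π * Complex.I * ((inner ℝ a x : ℝ) : ℂ))) := by
  have h1 := hasTemperateGrowth_cexp_real (2 * π * Complex.I) (by simp)
  have h2 : Function.HasTemperateGrowth (fun x : E => (inner ℝ a x : ℝ)) :=
    (innerSL ℝ a).hasTemperateGrowth
  exact h1.comp h2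

/-- The wave packet as a Schwartz function. -/
noncomputable def pkS (a : E) : 𝓢(E, ℂ) :=
  SchwartzMap.smulLeftCLM ℂ
    (fun x : E => Complex.exp (2 * π * Complex.I * ((inner ℝ a x : ℝ) : ℂ)))
    (SchwartzMap.compSubConstCLM ℂ a gauss)

theorem pkS_apply (a x : E) : pkS a x = pk a x := by
  unfold pkS pk
  rw [SchwartzMap.smulLeftCLM_apply_apply (hasTemperateGrowth_char a),
    SchwartzMap.compSubConstCLM_apply, gauss_apply, smul_eq_mul, ← Complex.exp_add]
  ring_nf

end Pool.Agent.MP_0a9cf0_an
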