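import Mathlib
import Pool.Agent.MP_0a9cf0_an.Packet

set_option autoImplicit false

namespace Pool.Agent.MP_0a9cf0_an

open Real Complex MeasureTheory

variable {E : Type*} [NormedAddCommGroup E] [InnerProductSpace ℝ E]

/-- Integrand of the cross Wigner function of two wave packets. -/
noncomputable def term (a b : E) (p : E × E) (y : E) : ℂ :=
  Complex.exp (-(2 * (π : ℂ) * Complex.I * ((inner ℝ y p.2 : ℝ) : ℂ)))
    * pk a (p.1 + (1/2 : ℝ) • y) * starRingEnd ℂ (pk b (p.1 - (1/2 : ℝ) • y))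

/-- position factor -/
noncomputable def fq (m c q : E) : ℂ :=
  Complex.exp (-(2 * π : ℂ) * ((‖q - m‖ ^ 2 : ℝ) : ℂ) + 2 * π * Complex.I * ((inner ℝ c q : ℝ) : ℂ))

/-- momentum factor -/
noncomputable def fv (m c v : E) : ℂ :=
  Complex.exp (-(2 * π : ℂ) * ((‖v - m‖ ^ 2 : ℝ) : ℂ)
    - 2 * π * Complex.I * ((inner ℝ c (v - m) : ℝ) : ℂ))

theorem sq_identity (q y a b : E) :
    ‖q + (1/2 : ℝ) • y - a‖ ^ 2 + ‖q - (1/2 : ℝ) • y - b‖ ^ 2 =
      2 * ‖q - (1/2 : ℝ) • (a + b)‖ ^ 2 + (1/2) * ‖y - (a - b)‖ ^ 2 := by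
  have h := parallelogram_law_with_norm ℝ (q + (1/2 : ℝ) • y - a) (q - (1/2 : ℝ) • y - b)
  have h1 : (q + (1/2 : ℝ) • y - a) + (q - (1/2 : ℝ) • y - b) = (2 : ℝ) • (q - (1/2 : ℝ) • (a + b)) := by
    module
  have h2 : (q + (1/2 : ℝ) • y - a) - (q - (1/2 : ℝ) • y - b) = y - (a - b) := by
    module
  rw [h1, h2, norm_smul, Real.norm_ofNat] at h
  linarith [h]

theorem term_eq (a b : E) (p : E × E) (y : E) :
    term a b p y = Complex.exp (-(2 * π : ℂ) * ((‖p.1 - (1/2 : ℝ) • (a + b)‖ ^ 2 : ℝ) : ℂ)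
        + 2 * π * Complex.I * ((inner ℝ (a - b) p.1 : ℝ) : ℂ)) *
      Complex.exp (-(π / 2 : ℂ) * ((‖y - (a - b)‖ ^ 2 : ℝ) : ℂ)
        - 2 * π * Complex.I * ((inner ℝ y (p.2 - (1/2 : ℝ) • (a + b)) : ℝ) : ℂ)) := by
  unfold term pk
  rw [← Complex.exp_conj, ← Complex.exp_add, ← Complex.exp_add, ← Complex.exp_add]
  congr 1
  simp only [map_add, map_mul, map_neg, Complex.conj_ofReal, Complex.conj_I, map_ofNat]
  have h := sq_identity p.1 y a b
  have h' : ((‖p.1 + (1/2 : ℝ) • y - a‖ ^ 2 : ℝ) : ℂ) + ((‖p.1 - (1/2 : ℝ) • y - b‖ ^ 2 : ℝ) : ℂ) =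
      2 * ((‖p.1 - (1/2 : ℝ) • (a + b)‖ ^ 2 : ℝ) : ℂ)
        + (1/2) * ((‖y - (a - b)‖ ^ 2 : ℝ) : ℂ) := by
    rw [← Complex.ofReal_add, h]
    push_cast
    ring
  have h3 : (inner ℝ a (p.1 + (1/2 : ℝ) • y) : ℝ) - inner ℝ b (p.1 - (1/2 : ℝ) • y)
      - inner ℝ y p.2 = inner ℝ (a - b) p.1 - inner ℝ y (p.2 - (1/2 : ℝ) • (a + b)) := by
    simp only [inner_add_right, inner_sub_right, inner_sub_left, inner_smul_right,
      real_inner_comm y]
    rw [real_inner_comm p.2 y]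
    simp only [real_inner_comm y]
    ring
  have h3' : ((inner ℝ a (p.1 + (1/2 : ℝ) • y) : ℝ) : ℂ) - ((inner ℝ b (p.1 - (1/2 : ℝ) • y) : ℝ) : ℂ)
      - ((inner ℝ y p.2 : ℝ) : ℂ) =
      ((inner ℝ (a - b) p.1 : ℝ) : ℂ) - ((inner ℝ y (p.2 - (1/2 : ℝ) • (a + b)) : ℝ) : ℂ) := by
    exact_mod_cast congrArg (fun t : ℝ => (t : ℂ)) h3
  linear_combination (-(π : ℂ)) * h' + (2 * π * Complex.I) * h3'

variable [FiniteDimensional ℝ E] [MeasurableSpace E] [BorelSpace E]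

/-- the constant `2^{d/2}` -/
noncomputable def cc (E : Type*) [NormedAddCommGroup E] [InnerProductSpace ℝ E] : ℝ :=
  (2 : ℝ) ^ ((Module.finrank ℝ E : ℝ) / 2)

theorem cc_pos : 0 < cc E := by
  unfold cc
  positivity

theorem integrable_gauss_lin (b : ℝ) (hb : 0 < b) (m w : E) (c : ℂ) :
    Integrable (fun y : E => Complex.exp (-(b : ℂ) * ((‖y - m‖ ^ 2 : ℝ) : ℂ)
        + c * ((inner ℝ w y : ℝ) : ℂ))) := by
  have h := GaussianFourier.integrable_cexp_neg_mul_sq_norm_add (V := E) (b := (b : ℂ))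
    (by simpa using hb) c w
  have h2 := (h.comp_sub_right m).const_mul (Complex.exp (c * ((inner ℝ w m : ℝ) : ℂ)))
  refine h2.congr (Filter.Eventually.of_forall fun y => ?_)
  simp only
  rw [← Complex.exp_add]
  congr 1
  rw [inner_sub_right]
  push_cast
  ring

theorem integral_gauss_shift (c w : E) :
    ∫ y : E, Complex.exp (-(π / 2 : ℂ) * ((‖y - c‖ ^ 2 : ℝ) : ℂ)
        - 2 * π * Complex.I * ((inner ℝ y w : ℝ) : ℂ)) =
      (cc E : ℂ) * Complex.exp (-(2 * π : ℂ) * ((‖w‖ ^ 2 : ℝ) : ℂ)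
        - 2 * π * Complex.I * ((inner ℝ c w : ℝ) : ℂ)) := by
  rw [← integral_add_right_eq_self _ c]
  have h1 : ∀ y : E, Complex.exp (-(π / 2 : ℂ) * ((‖y + c - c‖ ^ 2 : ℝ) : ℂ)
        - 2 * π * Complex.I * ((inner ℝ (y + c) w : ℝ) : ℂ)) =
      Complex.exp (- 2 * π * Complex.I * ((inner ℝ c w : ℝ) : ℂ)) *
        Complex.exp (-((π / 2 : ℝ) : ℂ) * (‖y‖ : ℂ) ^ 2
          + (-2 * π * Complex.I) * ((inner ℝ w y : ℝ) : ℂ)) := by
    intro y
    rw [← Complex.exp_add]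
    congr 1
    rw [add_sub_cancel_right, inner_add_left, real_inner_comm w y]
    push_cast
    ring
  simp_rw [h1]
  rw [integral_const_mul, GaussianFourier.integral_cexp_neg_mul_sq_norm_add
    (by simp; positivity)]
  have h2 : ((π : ℂ) / ((π / 2 : ℝ) : ℂ)) ^ ((Module.finrank ℝ E : ℂ) / 2) = (cc E : ℂ) := by
    unfold cc
    rw [Complex.ofReal_cpow (by norm_num)]
    congr 1
    · push_cast
      have : (π : ℂ) ≠ 0 := by exact_mod_cast Real.pi_ne_zero
      field_simp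
    · push_cast
      ring
  rw [h2]
  have h3 : ((-2 * (π : ℂ) * Complex.I) ^ 2 * (‖w‖ : ℂ) ^ 2 / (4 * ((π / 2 : ℝ) : ℂ))) =
      -(2 * π : ℂ) * ((‖w‖ ^ 2 : ℝ) : ℂ) := by
    have : (π : ℂ) ≠ 0 := by exact_mod_cast Real.pi_ne_zero
    push_cast
    have hI : Complex.I ^ 2 = -1 := Complex.I_sq
    field_simp
    rw [hI]
    ring
  rw [h3, mul_comm, mul_assoc, ← Complex.exp_add]
  congr 2
  ring

theorem integrable_term (a b : E) (p : E × E) : Integrable (term a b p) := by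
  have h := integrable_gauss_lin (E := E) (π / 2) (by positivity) (a - b)
    (p.2 - (1/2 : ℝ) • (a + b)) (-(2 * π * Complex.I))
  have h2 := h.const_mul (Complex.exp (-(2 * π : ℂ) * ((‖p.1 - (1/2 : ℝ) • (a + b)‖ ^ 2 : ℝ) : ℂ)
        + 2 * π * Complex.I * ((inner ℝ (a - b) p.1 : ℝ) : ℂ)))
  refine h2.congr (Filter.Eventually.of_forall fun y => ?_)
  rw [term_eq]
  simp only
  congr 2
  rw [real_inner_comm y]
  push_cast
  ring

theorem integral_term (a b : E) (p : E × E) :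
    ∫ y, term a b p y = (cc E : ℂ) * (fq ((1/2 : ℝ) • (a + b)) (a - b) p.1 *
      fv ((1/2 : ℝ) • (a + b)) (a - b) p.2) := by
  simp_rw [term_eq]
  rw [integral_const_mul, integral_gauss_shift]
  unfold fq fv
  ring

theorem integrable_fq (m c : E) : Integrable (fq m c) := by
  have h := integrable_gauss_lin (E := E) (2 * π) (by positivity) m c (2 * π * Complex.I)
  refine h.congr (Filter.Eventually.of_forall fun y => ?_)
  unfold fq
  push_cast
  rfl

theorem fv_eq (m c v : E) : fv m c v =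
    Complex.exp (2 * π * Complex.I * ((inner ℝ c m : ℝ) : ℂ)) * starRingEnd ℂ (fq m c v) := by
  unfold fv fq
  rw [← Complex.exp_conj, ← Complex.exp_add]
  congr 1
  simp only [map_add, map_mul, map_neg, Complex.conj_ofReal, Complex.conj_I, map_ofNat]
  rw [inner_sub_right]
  push_cast
  ring

theorem integrable_conj {f : E → ℂ} {μ : Measure E} (hf : Integrable f μ) :
    Integrable (fun x => starRingEnd ℂ (f x)) μ := by
  have := Complex.conjCLE.toContinuousLinearMap.integrable_comp hf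
  exact this

theorem integrable_fv (m c : E) : Integrable (fv m c) := by
  have h := (integrable_conj (integrable_fq m c)).const_mul
    (Complex.exp (2 * π * Complex.I * ((inner ℝ c m : ℝ) : ℂ)))
  refine h.congr (Filter.Eventually.of_forall fun y => ?_)
  exact (fv_eq m c y).symm

theorem integrable_wigner (a b : E) :
    Integrable (fun p : E × E => ∫ y, term a b p y) := by
  simp_rw [integral_term]
  apply Integrable.const_mul
  exact (integrable_fq _ _).mul_prod (integrable_fv _ _)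

/-- The basic oscillatory integral. -/
noncomputable def FA (A : Set E) (m c : E) : ℂ := ∫ q in A, fq m c q

theorem setIntegral_wigner (A : Set E) (a b : E) :
    ∫ p in A ×ˢ A, ∫ y, term a b p y =
      (cc E : ℂ) * Complex.exp (π * Complex.I * (((‖a‖ ^ 2 - ‖b‖ ^ 2 : ℝ)) : ℂ)) *
        ((‖FA A ((1/2 : ℝ) • (a + b)) (a - b)‖ ^ 2 : ℝ) : ℂ) := by
  simp_rw [integral_term]
  rw [integral_const_mul, Measure.volume_eq_prod, setIntegral_prod_mul]
  have h1 : ∫ v in A, fv ((1/2 : ℝ) • (a + b)) (a - b) v =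
      Complex.exp (2 * π * Complex.I * ((inner ℝ (a - b) ((1/2 : ℝ) • (a + b)) : ℝ) : ℂ)) *
        starRingEnd ℂ (FA A ((1/2 : ℝ) • (a + b)) (a - b)) := by
    simp_rw [fv_eq]
    rw [integral_const_mul]
    congr 1
    unfold FA
    exact integral_conj
  rw [h1]
  change (cc E : ℂ) * (FA A ((1/2 : ℝ) • (a + b)) (a - b) * _) = _
  have h2 : 2 * (inner ℝ (a - b) ((1/2 : ℝ) • (a + b)) : ℝ) = ‖a‖ ^ 2 - ‖b‖ ^ 2 := by
    rw [inner_smul_right, inner_sub_left, inner_add_right, inner_add_right,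
      real_inner_self_eq_norm_sq, real_inner_self_eq_norm_sq, real_inner_comm a b]
    ring
  have h3 : (2 * π * Complex.I * ((inner ℝ (a - b) ((1/2 : ℝ) • (a + b)) : ℝ) : ℂ)) =
      π * Complex.I * (((‖a‖ ^ 2 - ‖b‖ ^ 2 : ℝ)) : ℂ) := by
    rw [← h2]
    push_cast
    ring
  rw [h3]
  have h4 : FA A ((1/2 : ℝ) • (a + b)) (a - b) * starRingEnd ℂ (FA A ((1/2 : ℝ) • (a + b)) (a - b))
      = ((‖FA A ((1/2 : ℝ) • (a + b)) (a - b)‖ ^ 2 : ℝ) : ℂ) := by
    rw [Complex.mul_conj, Complex.normSq_eq_norm_sq]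
  rw [← h4]
  ring

end Pool.Agent.MP_0a9cf0_an
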