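import Mathlib
import Pool.Agent.MP_0a9cf0_an.Wigner

set_option autoImplicit false

namespace Pool.Agent.MP_0a9cf0_an

open Real Complex MeasureTheory

variable {E : Type*} [NormedAddCommGroup E] [InnerProductSpace ℝ E]

/-- Superposition of wave packets. -/
noncomputable def superS {ι : Type*} [Fintype ι] (c : ι → ℝ) (a : ι → E) : SchwartzMap E ℂ :=
  ∑ j, ((c j : ℝ) : ℂ) • pkS (a j)

theorem superS_apply {ι : Type*} [Fintype ι] (c : ι → ℝ) (a : ι → E) (x : E) :
    superS c a x = ∑ j, ((c j : ℝ) : ℂ) * pk (a j) x := by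
  unfold superS
  rw [sum_apply]
  refine Finset.sum_congr rfl fun j _ => ?_
  rw [smul_apply, pkS_apply, smul_eq_mul]

theorem norm_pk (a x : E) : ‖pk a x‖ = Real.exp (-π * ‖x - a‖ ^ 2) := by
  unfold pk
  rw [Complex.norm_exp]
  congr 1
  simp only [Complex.add_re, Complex.mul_re, Complex.neg_re, Complex.ofReal_re, Complex.neg_im,
    Complex.ofReal_im, Complex.mul_im, Complex.I_re, Complex.I_im, Complex.re_ofNat,
    Complex.im_ofNat]
  ring

theorem norm_pk_mul (a b x : E) : ‖pk a x‖ * ‖pk b x‖ =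
    Real.exp (-(π / 2) * ‖a - b‖ ^ 2) * Real.exp (-(2 * π) * ‖x - (1/2 : ℝ) • (a + b)‖ ^ 2) := by
  rw [norm_pk, norm_pk, ← Real.exp_add, ← Real.exp_add]
  congr 1
  have h := parallelogram_law_with_norm ℝ (x - a) (x - b)
  have h1 : (x - a) + (x - b) = (2 : ℝ) • (x - (1/2 : ℝ) • (a + b)) := by module
  have h2 : (x - a) - (x - b) = -(a - b) := by module
  rw [h1, h2, norm_smul, Real.norm_ofNat, norm_neg] at h
  have h3 : ‖x - a‖ ^ 2 + ‖x - b‖ ^ 2 =
      2 * ‖x - (1/2 : ℝ) • (a + b)‖ ^ 2 + (1/2) * ‖a - b‖ ^ 2 := by linarith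
  linear_combination (-π) * h3

variable [FiniteDimensional ℝ E] [MeasurableSpace E] [BorelSpace E]

/-- The Gaussian mass. -/
noncomputable def gm (E : Type*) [NormedAddCommGroup E] [InnerProductSpace ℝ E]
    [FiniteDimensional ℝ E] [MeasurableSpace E] [BorelSpace E] : ℝ :=
  ∫ x : E, Real.exp (-(2 * π) * ‖x‖ ^ 2)

theorem gm_pos : 0 < gm E := by
  unfold gm
  rw [GaussianFourier.integral_rexp_neg_mul_sq_norm (by positivity)]
  positivity

theorem integrable_rgauss (b : ℝ) (hb : 0 < b) (m : E) :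
    Integrable (fun x : E => Real.exp (-b * ‖x - m‖ ^ 2)) := by
  have h := (GaussianFourier.integrable_cexp_neg_mul_sq_norm_add (V := E) (b := (b : ℂ))
    (by simpa using hb) 0 0).norm
  have h2 := h.comp_sub_right m
  refine h2.congr (Filter.Eventually.of_forall fun x => ?_)
  simp only
  rw [Complex.norm_exp]
  congr 1
  simp [← Complex.ofReal_pow]

theorem integral_norm_pk_mul (a b : E) :
    ∫ x, ‖pk a x‖ * ‖pk b x‖ = Real.exp (-(π / 2) * ‖a - b‖ ^ 2) * gm E := by
  simp_rw [norm_pk_mul]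
  rw [integral_const_mul]
  congr 1
  exact integral_sub_right_eq_self (fun x : E => Real.exp (-(2 * π) * ‖x‖ ^ 2)) _

theorem integrable_norm_pk_mul (a b : E) : Integrable (fun x => ‖pk a x‖ * ‖pk b x‖) := by
  simp_rw [norm_pk_mul]
  exact (integrable_rgauss _ (by positivity) _).const_mul _

theorem integral_norm_sq_superS {ι : Type*} [Fintype ι] (c : ι → ℝ) (a : ι → E)
    (hc : ∀ j, 0 ≤ c j) :
    ∫ x, ‖superS c a x‖ ^ 2 ≤
      ∑ j, ∑ k, c j * c k * (Real.exp (-(π / 2) * ‖a j - a k‖ ^ 2) * gm E) := by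
  have h1 : ∀ x, ‖superS c a x‖ ^ 2 ≤ ∑ j, ∑ k, c j * c k * (‖pk (a j) x‖ * ‖pk (a k) x‖) := by
    intro x
    rw [superS_apply]
    have h2 : ‖∑ j, ((c j : ℝ) : ℂ) * pk (a j) x‖ ≤ ∑ j, c j * ‖pk (a j) x‖ := by
      refine (norm_sum_le _ _).trans (Finset.sum_le_sum fun j _ => ?_)
      rw [norm_mul, Complex.norm_real, Real.norm_eq_abs, abs_of_nonneg (hc j)]
    calc ‖∑ j, ((c j : ℝ) : ℂ) * pk (a j) x‖ ^ 2 ≤ (∑ j, c j * ‖pk (a j) x‖) ^ 2 := by gcongr
      _ = ∑ j, ∑ k, c j * c k * (‖pk (a j) x‖ * ‖pk (a k) x‖) := by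
        rw [sq, Finset.sum_mul_sum]
        refine Finset.sum_congr rfl fun j _ => Finset.sum_congr rfl fun k _ => ?_
        ring
  have hint : ∀ j k, Integrable (fun x => c j * c k * (‖pk (a j) x‖ * ‖pk (a k) x‖)) :=
    fun j k => (integrable_norm_pk_mul _ _).const_mul _
  calc ∫ x, ‖superS c a x‖ ^ 2 ≤ ∫ x, ∑ j, ∑ k, c j * c k * (‖pk (a j) x‖ * ‖pk (a k) x‖) := by
        apply integral_mono_of_nonneg (Filter.Eventually.of_forall fun x => by positivity)
        · exact integrable_finsetSum _ fun j _ => integrable_finsetSum _ fun k _ => hint j k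
        · exact Filter.Eventually.of_forall h1
    _ = ∑ j, ∑ k, c j * c k * (Real.exp (-(π / 2) * ‖a j - a k‖ ^ 2) * gm E) := by
        rw [integral_finsetSum _ fun j _ => integrable_finsetSum _ fun k _ => hint j k]
        refine Finset.sum_congr rfl fun j _ => ?_
        rw [integral_finsetSum _ fun k _ => hint j k]
        refine Finset.sum_congr rfl fun k _ => ?_
        rw [integral_const_mul, integral_norm_pk_mul]

theorem integral_super {ι : Type*} [Fintype ι] (c : ι → ℝ) (a : ι → E) (A : Set E) :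
    (∫ p in A ×ˢ A, ∫ y : E,
              Complex.exp (-(2 * (Real.pi : ℂ) * Complex.I * ((inner ℝ y p.2 : ℝ) : ℂ)))
                * superS c a (p.1 + (1/2 : ℝ) • y)
                * starRingEnd ℂ (superS c a (p.1 - (1/2 : ℝ) • y))) =
      ∑ j, ∑ k, ((c j * c k : ℝ) : ℂ) * ∫ p in A ×ˢ A, ∫ y, term (a j) (a k) p y := by
  have h1 : ∀ (p : E × E) (y : E),
      Complex.exp (-(2 * (Real.pi : ℂ) * Complex.I * ((inner ℝ y p.2 : ℝ) : ℂ)))
                * superS c a (p.1 + (1/2 : ℝ) • y)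
                * starRingEnd ℂ (superS c a (p.1 - (1/2 : ℝ) • y)) =
      ∑ j, ∑ k, ((c j * c k : ℝ) : ℂ) * term (a j) (a k) p y := by
    intro p y
    rw [superS_apply, superS_apply, map_sum, mul_assoc, Finset.sum_mul_sum, Finset.mul_sum]
    refine Finset.sum_congr rfl fun j _ => ?_
    rw [Finset.mul_sum]
    refine Finset.sum_congr rfl fun k _ => ?_
    unfold term
    rw [map_mul, Complex.conj_ofReal]
    push_cast
    ring
  simp_rw [h1]
  have h2 : ∀ p : E × E, ∫ y, ∑ j, ∑ k, ((c j * c k : ℝ) : ℂ) * term (a j) (a k) p y =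
      ∑ j, ∑ k, ((c j * c k : ℝ) : ℂ) * ∫ y, term (a j) (a k) p y := by
    intro p
    rw [integral_finsetSum _ fun j _ => integrable_finsetSum _ fun k _ =>
      (integrable_term (a j) (a k) p).const_mul _]
    refine Finset.sum_congr rfl fun j _ => ?_
    rw [integral_finsetSum _ fun k _ => (integrable_term (a j) (a k) p).const_mul _]
    refine Finset.sum_congr rfl fun k _ => ?_
    rw [integral_const_mul]
  simp_rw [h2]
  rw [integral_finsetSum _ fun j _ => integrable_finsetSum _ fun k _ =>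
      ((integrable_wigner (a j) (a k)).integrableOn).const_mul _]
  refine Finset.sum_congr rfl fun j _ => ?_
  rw [integral_finsetSum _ fun k _ => ((integrable_wigner (a j) (a k)).integrableOn).const_mul _]
  refine Finset.sum_congr rfl fun k _ => ?_
  rw [integral_const_mul]

/-- Lower bound of the quadratic form for a superposition with all phases equal to one. -/
theorem super_lower {ι : Type*} [Fintype ι] (ε : ℝ) (hε : 0 ≤ ε) (a : ι → E) (A : Set E)
    (L : ℕ) (ha : ∀ j, ‖a j‖ ^ 2 = 2 * (L : ℝ)) :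
    ε * (cc E * ∑ j, ‖FA A ((1/2 : ℝ) • a j) (a j)‖ ^ 2) ≤
    (∫ p in A ×ˢ A, ∫ y : E,
              Complex.exp (-(2 * (Real.pi : ℂ) * Complex.I * ((inner ℝ y p.2 : ℝ) : ℂ)))
                * superS (fun j : Option ι => j.elim 1 (fun _ => ε))
                    (fun j : Option ι => j.elim 0 a) (p.1 + (1/2 : ℝ) • y)
                * starRingEnd ℂ (superS (fun j : Option ι => j.elim 1 (fun _ => ε))
                    (fun j : Option ι => j.elim 0 a) (p.1 - (1/2 : ℝ) • y))).re := by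
  classical
  rw [integral_super]
  set c : Option ι → ℝ := fun j => j.elim 1 (fun _ => ε) with hc
  set b : Option ι → E := fun j => j.elim 0 a with hb
  have hnorm : ∀ j, ∃ K : ℤ, ‖b j‖ ^ 2 = 2 * (K : ℝ) := by
    intro j
    cases j with
    | none => exact ⟨0, by simp [hb]⟩
    | some j => exact ⟨L, by simp [hb, ha j]⟩
  have hval : ∀ j k, ∫ p in A ×ˢ A, ∫ y, term (b j) (b k) p y =
      ((cc E * ‖FA A ((1/2 : ℝ) • (b j + b k)) (b j - b k)‖ ^ 2 : ℝ) : ℂ) := by
    intro j k
    rw [setIntegral_wigner]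
    obtain ⟨K1, h1⟩ := hnorm j
    obtain ⟨K2, h2⟩ := hnorm k
    have h3 : Complex.exp (π * Complex.I * (((‖b j‖ ^ 2 - ‖b k‖ ^ 2 : ℝ)) : ℂ)) = 1 := by
      rw [Complex.exp_eq_one_iff]
      refine ⟨K1 - K2, ?_⟩
      rw [h1, h2]
      push_cast
      ring
    rw [h3, mul_one]
    push_cast
    rfl
  have hcnn : ∀ j, 0 ≤ c j := by
    intro j
    cases j with
    | none => simp [hc]
    | some j => simpa [hc] using hε
  have hre : (∑ j, ∑ k, ((c j * c k : ℝ) : ℂ) * ∫ p in A ×ˢ A, ∫ y, term (b j) (b k) p y).re =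
      ∑ j, ∑ k, c j * c k * (cc E * ‖FA A ((1/2 : ℝ) • (b j + b k)) (b j - b k)‖ ^ 2) := by
    rw [Complex.re_sum]
    refine Finset.sum_congr rfl fun j _ => ?_
    rw [Complex.re_sum]
    refine Finset.sum_congr rfl fun k _ => ?_
    rw [hval, ← Complex.ofReal_mul, Complex.ofReal_re]
  rw [hre]
  have hnn : ∀ j k, 0 ≤ c j * c k * (cc E * ‖FA A ((1/2 : ℝ) • (b j + b k)) (b j - b k)‖ ^ 2) := by
    intro j k
    have := hcnn j
    have := hcnn k
    have := (cc_pos (E := E)).le
    positivity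
  calc ε * (cc E * ∑ j, ‖FA A ((1/2 : ℝ) • a j) (a j)‖ ^ 2)
      = ∑ j : ι, c (some j) * c none *
          (cc E * ‖FA A ((1/2 : ℝ) • (b (some j) + b none)) (b (some j) - b none)‖ ^ 2) := by
        rw [Finset.mul_sum, Finset.mul_sum]
        refine Finset.sum_congr rfl fun j _ => ?_
        simp [hc, hb]
    _ ≤ ∑ j : ι, ∑ k, c (some j) * c k *
          (cc E * ‖FA A ((1/2 : ℝ) • (b (some j) + b k)) (b (some j) - b k)‖ ^ 2) := by
        refine Finset.sum_le_sum fun j _ => ?_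
        exact Finset.single_le_sum (f := fun k => c (some j) * c k *
          (cc E * ‖FA A ((1/2 : ℝ) • (b (some j) + b k)) (b (some j) - b k)‖ ^ 2))
          (fun k _ => hnn (some j) k) (Finset.mem_univ none)
    _ ≤ ∑ j, ∑ k, c j * c k *
          (cc E * ‖FA A ((1/2 : ℝ) • (b j + b k)) (b j - b k)‖ ^ 2) := by
        rw [Fintype.sum_option (f := fun j => ∑ k, c j * c k *
          (cc E * ‖FA A ((1/2 : ℝ) • (b j + b k)) (b j - b k)‖ ^ 2))]
        have : 0 ≤ ∑ k, c none * c k *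
          (cc E * ‖FA A ((1/2 : ℝ) • (b none + b k)) (b none - b k)‖ ^ 2) :=
          Finset.sum_nonneg fun k _ => hnn none k
        linarith

end Pool.Agent.MP_0a9cf0_an
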