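import Mathlib
import Pool.Agent.MP_0a9cf0_an.Expand

set_option autoImplicit false

namespace Pool.Agent.MP_0a9cf0_an

open Real Complex MeasureTheory Filter Set Topology

/-- The one dimensional half line integral. -/
noncomputable def J (ρ : ℝ) : ℂ :=
  ∫ s in Iic (0 : ℝ), Complex.exp (-(2 * π : ℂ) * (s : ℂ) ^ 2 + 2 * π * Complex.I * ρ * s)

theorem integrable_line (ρ : ℝ) :
    Integrable (fun s : ℝ => Complex.exp (-(2 * π : ℂ) * (s : ℂ) ^ 2 + 2 * π * Complex.I * ρ * s)) := by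
  have h := integrable_cexp_quadratic (b := (2 * π : ℂ)) (by simp; positivity)
    (2 * π * Complex.I * ρ) 0
  refine h.congr (Filter.Eventually.of_forall fun s => ?_)
  simp

theorem re_expo (ρ s : ℝ) :
    (-(2 * π : ℂ) * (s : ℂ) ^ 2 + 2 * π * Complex.I * ρ * s).re = -(2 * π) * s ^ 2 := by
  have : (-(2 * π : ℂ) * (s : ℂ) ^ 2 + 2 * π * Complex.I * ρ * s) =
      ((-(2 * π) * s ^ 2 : ℝ) : ℂ) + ((2 * π * ρ * s : ℝ) : ℂ) * Complex.I := by
    push_cast
    ring
  rw [this]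
  simp only [Complex.add_re, Complex.ofReal_re, Complex.mul_re, Complex.I_re, Complex.ofReal_im,
    Complex.I_im]
  ring

theorem integrable_line_mul (ρ : ℝ) :
    Integrable (fun s : ℝ => (4 * π * s : ℂ) *
      Complex.exp (-(2 * π : ℂ) * (s : ℂ) ^ 2 + 2 * π * Complex.I * ρ * s)) := by
  have h1 : Integrable (fun s : ℝ => s * Real.exp (-(2 * π) * s ^ 2)) :=
    integrable_mul_exp_neg_mul_sq (by positivity)
  have h2 := (h1.norm.const_mul (4 * π))
  refine h2.mono' (by fun_prop) (Filter.Eventually.of_forall fun s => ?_)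
  rw [norm_mul, Complex.norm_exp, Real.norm_eq_abs, abs_mul, abs_of_pos (Real.exp_pos _), re_expo]
  have h4 : ‖(4 * π * s : ℂ)‖ = 4 * π * |s| := by
    rw [norm_mul, norm_mul]
    simp [abs_of_pos Real.pi_pos]
  rw [h4]
  apply le_of_eq
  ring

theorem J_parts (ρ : ℝ) :
    2 * π * Complex.I * ρ * J ρ = 1 + ∫ s in Iic (0 : ℝ), (4 * π * s : ℂ) *
      Complex.exp (-(2 * π : ℂ) * (s : ℂ) ^ 2 + 2 * π * Complex.I * ρ * s) := by
  have hd : ∀ s : ℝ, HasDerivAt
      (fun s : ℝ => Complex.exp (-(2 * π : ℂ) * (s : ℂ) ^ 2 + 2 * π * Complex.I * ρ * s))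
      ((2 * π * Complex.I * ρ) *
        Complex.exp (-(2 * π : ℂ) * (s : ℂ) ^ 2 + 2 * π * Complex.I * ρ * s) -
        (4 * π * s : ℂ) *
        Complex.exp (-(2 * π : ℂ) * (s : ℂ) ^ 2 + 2 * π * Complex.I * ρ * s)) s := by
    intro s
    have h0 : HasDerivAt (fun s : ℝ => (s : ℂ)) 1 s := (hasDerivAt_id s).ofReal_comp
    have h1 : HasDerivAt (fun s : ℝ => -(2 * π : ℂ) * (s : ℂ) ^ 2 + 2 * π * Complex.I * ρ * s)
        (-(2 * π : ℂ) * (((2 : ℕ) : ℂ) * (s : ℂ) ^ (2 - 1) * 1) + 2 * π * Complex.I * ρ * 1) s :=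
      ((h0.pow 2).const_mul _).add (h0.const_mul _)
    have h2 := h1.cexp
    refine h2.congr_deriv ?_
    push_cast
    ring
  have hint : IntegrableOn (fun s : ℝ => (2 * π * Complex.I * ρ) *
        Complex.exp (-(2 * π : ℂ) * (s : ℂ) ^ 2 + 2 * π * Complex.I * ρ * s) -
        (4 * π * s : ℂ) *
        Complex.exp (-(2 * π : ℂ) * (s : ℂ) ^ 2 + 2 * π * Complex.I * ρ * s)) (Iic 0) :=
    (((integrable_line ρ).const_mul _).sub (integrable_line_mul ρ)).integrableOn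
  have hlim : Tendsto
      (fun s : ℝ => Complex.exp (-(2 * π : ℂ) * (s : ℂ) ^ 2 + 2 * π * Complex.I * ρ * s))
      atBot (𝓝 0) := by
    rw [tendsto_zero_iff_norm_tendsto_zero]
    have h3 : ∀ s : ℝ, ‖Complex.exp (-(2 * π : ℂ) * (s : ℂ) ^ 2 + 2 * π * Complex.I * ρ * s)‖ =
        Real.exp (-(2 * π) * s ^ 2) := by
      intro s
      rw [Complex.norm_exp]
      rw [re_expo]
    simp_rw [h3]
    apply Real.tendsto_exp_atBot.comp
    have h4 : Tendsto (fun s : ℝ => s ^ 2) atBot atTop := by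
      have := (tendsto_pow_atTop (α := ℝ) two_ne_zero).comp tendsto_abs_atBot_atTop
      refine this.congr fun s => ?_
      simp [sq_abs]
    have h5 : (-(2 * π)) < 0 := by
      have := Real.pi_pos
      linarith
    exact h4.const_mul_atTop_of_neg h5
  have h := integral_Iic_of_hasDerivAt_of_tendsto' (a := (0 : ℝ)) (fun s _ => hd s) hint hlim
  rw [integral_sub ((integrable_line ρ).const_mul _).integrableOn
    (integrable_line_mul ρ).integrableOn, integral_const_mul] at h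
  unfold J
  simp only [Complex.ofReal_zero, ne_eq, OfNat.ofNat_ne_zero, not_false_eq_true, zero_pow,
    mul_zero, add_zero, Complex.exp_zero, sub_zero] at h
  linear_combination h

theorem J_tendsto : Tendsto (fun ρ : ℝ => 2 * π * Complex.I * ρ * J ρ) atTop (𝓝 1) := by
  have h0 := Real.tendsto_integral_exp_smul_cocompact
    (fun s : ℝ => (Iic (0 : ℝ)).indicator
      (fun s : ℝ => (4 * π * s : ℂ) * Complex.exp (-(2 * π : ℂ) * (s : ℂ) ^ 2)) s)
  have h1 : Tendsto (fun ρ : ℝ => -ρ) atTop (cocompact ℝ) :=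
    tendsto_neg_atTop_atBot.mono_right atBot_le_cocompact
  have h2 := h0.comp h1
  have h3 : ∀ ρ : ℝ, 2 * π * Complex.I * ρ * J ρ = 1 + ∫ v : ℝ, Real.fourierChar (-(v * (-ρ))) •
      (Iic (0 : ℝ)).indicator
      (fun s : ℝ => (4 * π * s : ℂ) * Complex.exp (-(2 * π : ℂ) * (s : ℂ) ^ 2)) v := by
    intro ρ
    rw [J_parts, ← integral_indicator measurableSet_Iic]
    congr 1
    apply integral_congr_ae
    refine Filter.Eventually.of_forall fun s => ?_
    simp only [Set.indicator]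
    split_ifs with hs
    · rw [Circle.smul_def, Real.fourierChar_apply, smul_eq_mul]
      rw [Complex.exp_add]
      have : (2 * (π : ℂ) * Complex.I * ρ * s) = (((2 * π * -(s * -ρ) : ℝ)) : ℂ) * Complex.I := by
        push_cast
        ring
      rw [this]
      ring
    · simp
  simp_rw [h3]
  simpa using h2.const_add 1

/-- The half space integral. -/
noncomputable def Hs {E : Type*} [NormedAddCommGroup E] [InnerProductSpace ℝ E]
    [FiniteDimensional ℝ E] [MeasurableSpace E] [BorelSpace E] (a : E) : ℂ :=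
  ∫ w : E, ({w : E | inner ℝ a w ≤ 0}).indicator (fun w : E =>
    Complex.exp (-(2 * π : ℂ) * ((‖w‖ ^ 2 : ℝ) : ℂ)
      + 2 * π * Complex.I * ((inner ℝ a w : ℝ) : ℂ))) w

theorem Hs_rot {E : Type*} [NormedAddCommGroup E] [InnerProductSpace ℝ E]
    [FiniteDimensional ℝ E] [MeasurableSpace E] [BorelSpace E] (a b : E) (h : ‖a‖ = ‖b‖) :
    Hs a = Hs b := by
  let L : E ≃ₗᵢ[ℝ] E := Submodule.reflection (ℝ ∙ (a - b))ᗮ
  have hL : L a = b := Submodule.reflection_sub h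
  unfold Hs
  rw [← L.measurePreserving.integral_comp L.toHomeomorph.measurableEmbedding
    (fun w : E => ({w : E | inner ℝ b w ≤ 0}).indicator (fun w : E =>
    Complex.exp (-(2 * π : ℂ) * ((‖w‖ ^ 2 : ℝ) : ℂ)
      + 2 * π * Complex.I * ((inner ℝ b w : ℝ) : ℂ))) w)]
  congr 1
  funext w
  have h1 : (inner ℝ b (L w) : ℝ) = inner ℝ a w := by
    rw [← hL, LinearIsometryEquiv.inner_map_map]
  simp only [Set.indicator, Set.mem_ofPred_eq, h1, LinearIsometryEquiv.norm_map]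

theorem Hs_single (n : ℕ) (ρ : ℝ) (hρ : 0 < ρ) :
    Hs (EuclideanSpace.single (0 : Fin (n + 1)) ρ) =
      J ρ * (∫ s : ℝ, Complex.exp (-(2 * π : ℂ) * (s : ℂ) ^ 2)) ^ n := by
  unfold Hs
  rw [← (PiLp.volume_preserving_toLp (Fin (n + 1))).integral_comp
    (MeasurableEquiv.toLp 2 _).measurableEmbedding]
  have h1 : ∀ x : Fin (n + 1) → ℝ, ({w : EuclideanSpace ℝ (Fin (n + 1)) |
      inner ℝ (EuclideanSpace.single (0 : Fin (n + 1)) ρ) w ≤ 0}).indicator
      (fun w : EuclideanSpace ℝ (Fin (n + 1)) =>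
        Complex.exp (-(2 * π : ℂ) * ((‖w‖ ^ 2 : ℝ) : ℂ)
        + 2 * π * Complex.I *
          ((inner ℝ (EuclideanSpace.single (0 : Fin (n + 1)) ρ) w : ℝ) : ℂ))) (WithLp.toLp 2 x) =
      ∏ i, (fun (i : Fin (n + 1)) (s : ℝ) => Complex.exp (-(2 * π : ℂ) * (s : ℂ) ^ 2) *
        (if i = 0 then (Iic (0 : ℝ)).indicator
          (fun s : ℝ => Complex.exp (2 * π * Complex.I * ρ * s)) s else 1)) i (x i) := by
    intro x
    have hin : (inner ℝ (EuclideanSpace.single (0 : Fin (n + 1)) ρ) (WithLp.toLp 2 x) : ℝ) =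
        ρ * x 0 := by
      rw [EuclideanSpace.inner_single_left]
      simp
    have hno : ‖(WithLp.toLp 2 x : EuclideanSpace ℝ (Fin (n + 1)))‖ ^ 2 = ∑ i, x i ^ 2 := by
      rw [EuclideanSpace.norm_sq_eq]
      simp
    rw [Fin.prod_univ_succ]
    simp only [Set.indicator, Set.mem_ofPred_eq, hin, hno, if_true, Fin.succ_ne_zero, if_false,
      mul_one, Set.mem_Iic]
    have hiff : ρ * x 0 ≤ 0 ↔ x 0 ≤ 0 := by
      constructor
      · intro h
        by_contra hc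
        push Not at hc
        have := mul_pos hρ hc
        linarith
      · intro h
        exact mul_nonpos_of_nonneg_of_nonpos hρ.le h
    by_cases hx : x 0 ≤ 0
    · rw [if_pos (hiff.2 hx), if_pos hx, ← Complex.exp_add, ← Complex.exp_sum, ← Complex.exp_add]
      congr 1
      rw [Fin.sum_univ_succ]
      push_cast
      rw [mul_add, Finset.mul_sum]
      ring
    · rw [if_neg (fun h => hx (hiff.1 h)), if_neg hx]
      ring
  simp_rw [h1]
  rw [integral_fintype_prod_volume_eq_prod (f := (fun (i : Fin (n + 1)) (s : ℝ) =>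
    Complex.exp (-(2 * π : ℂ) * (s : ℂ) ^ 2) *
        (if i = 0 then (Iic (0 : ℝ)).indicator
          (fun s : ℝ => Complex.exp (2 * π * Complex.I * ρ * s)) s else 1)))]
  rw [Fin.prod_univ_succ]
  simp only [if_true, Fin.succ_ne_zero, if_false, mul_one, Finset.prod_const, Finset.card_univ,
    Fintype.card_fin]
  congr 1
  unfold J
  rw [← integral_indicator measurableSet_Iic]
  congr 1
  funext s
  simp only [Set.indicator]
  split_ifs
  · rw [← Complex.exp_add]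
  · simp

theorem gauss_line_pos : 0 < ‖∫ s : ℝ, Complex.exp (-(2 * π : ℂ) * (s : ℂ) ^ 2)‖ := by
  have h := integral_gaussian_complex (b := (2 * π : ℂ)) (by simp; positivity)
  rw [h, norm_pos_iff]
  rw [Ne, Complex.cpow_eq_zero_iff]
  push Not
  intro h0
  exfalso
  have hpi : (π : ℂ) ≠ 0 := by exact_mod_cast Real.pi_ne_zero
  field_simp at h0
  norm_num at h0

/-- The half space integral is at least `c / ‖a‖`. -/
theorem Hs_lower (n : ℕ) : ∃ c : ℝ, 0 < c ∧ ∃ ρ₀ : ℝ, 0 < ρ₀ ∧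
    ∀ a : EuclideanSpace ℝ (Fin (n + 1)), ρ₀ ≤ ‖a‖ → c / ‖a‖ ≤ ‖Hs a‖ := by
  set g := ‖∫ s : ℝ, Complex.exp (-(2 * π : ℂ) * (s : ℂ) ^ 2)‖ with hg
  have hgpos : 0 < g := gauss_line_pos
  have h1 := J_tendsto.norm
  rw [norm_one] at h1
  have h2 : ∀ᶠ ρ : ℝ in atTop, (1 / 2 : ℝ) < ‖2 * π * Complex.I * ρ * J ρ‖ :=
    h1.eventually (lt_mem_nhds (by norm_num))
  obtain ⟨ρ₁, hρ₁⟩ := eventually_atTop.1 h2
  refine ⟨g ^ n / (4 * π), by positivity, max ρ₁ 1, by positivity, fun a ha => ?_⟩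
  have ha1 : ρ₁ ≤ ‖a‖ := (le_max_left _ _).trans ha
  have ha2 : 0 < ‖a‖ := lt_of_lt_of_le one_pos ((le_max_right _ _).trans ha)
  have h3 := hρ₁ ‖a‖ ha1
  have h4 : ‖a‖ = ‖(EuclideanSpace.single (0 : Fin (n + 1)) ‖a‖ : EuclideanSpace ℝ (Fin (n + 1)))‖ := by
    simp
  rw [Hs_rot a _ h4, Hs_single n ‖a‖ ha2, norm_mul, norm_pow, ← hg]
  have h5 : ‖2 * π * Complex.I * (‖a‖ : ℂ) * J ‖a‖‖ = 2 * π * ‖a‖ * ‖J ‖a‖‖ := by
    simp [abs_of_pos Real.pi_pos]
  rw [h5] at h3
  rw [div_div, div_le_iff₀ (by positivity)]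
  have h6 : 0 < g ^ n := by positivity
  nlinarith [mul_lt_mul_of_pos_right h3 h6]

end Pool.Agent.MP_0a9cf0_an
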