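import Mathlib
import Pool.Agent.MP_0a9cf0_an.HalfSpace

set_option autoImplicit false

namespace Pool.Agent.MP_0a9cf0_an

open Real Complex MeasureTheory Filter Set Topology

/-- The polyhedron of the points closer to the origin than to each `a j`. -/
def polyA {E : Type*} [NormedAddCommGroup E] [InnerProductSpace ℝ E] {ι : Type*} (a : ι → E) :
    Set E :=
  {q : E | ∀ j, inner ℝ (a j) q ≤ ‖a j‖ ^ 2 / 2}

section

variable {E : Type*} [NormedAddCommGroup E] [InnerProductSpace ℝ E] {ι : Type*}

theorem convex_polyA (a : ι → E) : Convex ℝ (polyA a) := by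
  have : polyA a = ⋂ j, {q : E | inner ℝ (a j) q ≤ ‖a j‖ ^ 2 / 2} := by
    ext q
    simp [polyA]
  rw [this]
  refine convex_iInter fun j => ?_
  exact convex_halfSpace_le (f := fun q : E => (inner ℝ (a j) q : ℝ))
    ((innerSL ℝ (a j)).isLinear) _

theorem isClosed_polyA (a : ι → E) : IsClosed (polyA a) := by
  have : polyA a = ⋂ j, {q : E | inner ℝ (a j) q ≤ ‖a j‖ ^ 2 / 2} := by
    ext q
    simp [polyA]
  rw [this]
  refine isClosed_iInter fun j => ?_
  exact isClosed_le (by fun_prop) continuous_const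

variable [FiniteDimensional ℝ E] [MeasurableSpace E] [BorelSpace E]

/-- shifted integrand -/
noncomputable def gw (a w : E) : ℂ :=
  Complex.exp (-(2 * π : ℂ) * ((‖w‖ ^ 2 : ℝ) : ℂ)
      + 2 * π * Complex.I * ((inner ℝ a w : ℝ) : ℂ))

omit [FiniteDimensional ℝ E] [MeasurableSpace E] [BorelSpace E] in
theorem norm_gw (a w : E) : ‖gw a w‖ = Real.exp (-(2 * π) * ‖w‖ ^ 2) := by
  unfold gw
  rw [Complex.norm_exp]
  congr 1
  simp only [Complex.add_re, Complex.mul_re, Complex.neg_re, Complex.ofReal_re, Complex.neg_im,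
    Complex.ofReal_im, Complex.mul_im, Complex.I_re, Complex.I_im, Complex.re_ofNat,
    Complex.im_ofNat]
  ring

theorem integrable_gw (a : E) : Integrable (gw a) := by
  have h := integrable_gauss_lin (E := E) (2 * π) (by positivity) 0 a (2 * π * Complex.I)
  refine h.congr (Filter.Eventually.of_forall fun y => ?_)
  unfold gw
  simp only [sub_zero]
  push_cast
  rfl

theorem norm_FA_eq (A : Set E) (hA : MeasurableSet A) (a : E) :
    ‖FA A ((1/2 : ℝ) • a) a‖ =
      ‖∫ w : E, ((fun w : E => w + (1/2 : ℝ) • a) ⁻¹' A).indicator (gw a) w‖ := by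
  unfold FA
  rw [← integral_indicator hA, ← integral_add_right_eq_self _ ((1/2 : ℝ) • a)]
  have h1 : ∀ w : E, A.indicator (fun q => fq ((1/2 : ℝ) • a) a q) (w + (1/2 : ℝ) • a) =
      Complex.exp (((π * ‖a‖ ^ 2 : ℝ) : ℂ) * Complex.I) *
        ((fun w : E => w + (1/2 : ℝ) • a) ⁻¹' A).indicator (gw a) w := by
    intro w
    by_cases h : w + (1/2 : ℝ) • a ∈ A
    · have h' : w ∈ (fun w : E => w + (1/2 : ℝ) • a) ⁻¹' A := h
      rw [Set.indicator_of_mem h, Set.indicator_of_mem h']
      unfold fq gw
      rw [← Complex.exp_add]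
      congr 1
      rw [add_sub_cancel_right, inner_add_right, inner_smul_right, real_inner_self_eq_norm_sq]
      push_cast
      ring
    · have h' : w ∉ (fun w : E => w + (1/2 : ℝ) • a) ⁻¹' A := h
      rw [Set.indicator_of_notMem h, Set.indicator_of_notMem h', mul_zero]
  simp_rw [h1]
  rw [integral_const_mul, norm_mul, Complex.norm_exp_ofReal_mul_I, one_mul]

theorem FA_lower (a : ι → E) (ρ σ : ℝ) (hρ : 0 < ρ) (hσ : 0 ≤ σ) (hnorm : ∀ j, ‖a j‖ = ρ)
    (hsep : ∀ j k, j ≠ k → σ ≤ ‖a j - a k‖) (j : ι) :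
    ‖Hs (a j)‖ - Real.exp (-π * (σ ^ 2 / (4 * ρ)) ^ 2) ≤
      ‖FA (polyA a) ((1/2 : ℝ) • a j) (a j)‖ := by
  have hA : MeasurableSet (polyA a) := (isClosed_polyA a).measurableSet
  rw [norm_FA_eq _ hA]
  set S : Set E := (fun w : E => w + (1/2 : ℝ) • a j) ⁻¹' (polyA a) with hS
  have hSm : MeasurableSet S := (measurable_id.add_const _) hA
  set H : Set E := {w : E | inner ℝ (a j) w ≤ 0} with hH
  have hHm : MeasurableSet H := by
    exact (isClosed_le (by fun_prop) continuous_const).measurableSet
  set t : ℝ := σ ^ 2 / (4 * ρ) with ht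
  have ht0 : 0 ≤ t := by positivity
  have h0 : Hs (a j) = ∫ w : E, H.indicator (gw (a j)) w := rfl
  have h1 : Hs (a j) - ∫ w : E, S.indicator (gw (a j)) w =
      ∫ w : E, (H.indicator (gw (a j)) w - S.indicator (gw (a j)) w) := by
    rw [h0, integral_sub ((integrable_gw _).indicator hHm) ((integrable_gw _).indicator hSm)]
  have hpt : ∀ w : E, ‖H.indicator (gw (a j)) w - S.indicator (gw (a j)) w‖ ≤
      Real.exp (-π * t ^ 2) * Real.exp (-π * ‖w‖ ^ 2) := by
    intro w
    have hSH : w ∈ S → w ∈ H := by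
      intro hw
      have h2 := hw j
      rw [inner_add_right, inner_smul_right, real_inner_self_eq_norm_sq] at h2
      change inner ℝ (a j) w ≤ 0
      linarith
    by_cases hwS : w ∈ S
    · rw [Set.indicator_of_mem hwS, Set.indicator_of_mem (hSH hwS), sub_self, norm_zero]
      positivity
    · by_cases hwH : w ∈ H
      · rw [Set.indicator_of_notMem hwS, Set.indicator_of_mem hwH, sub_zero, norm_gw]
        have h3 : ∃ k, ¬ (inner ℝ (a k) (w + (1/2 : ℝ) • a j) ≤ ‖a k‖ ^ 2 / 2) := by
          by_contra hcon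
          push Not at hcon
          exact hwS hcon
        obtain ⟨k, hk⟩ := h3
        push Not at hk
        rw [inner_add_right, inner_smul_right] at hk
        have hwH' : inner ℝ (a j) w ≤ 0 := hwH
        have hkj : j ≠ k := by
          rintro rfl
          rw [real_inner_self_eq_norm_sq] at hk
          linarith
        have h4 := hsep j k hkj
        have h5 : ‖a j - a k‖ ^ 2 = 2 * ρ ^ 2 - 2 * inner ℝ (a k) (a j) := by
          rw [norm_sub_sq_real, hnorm, hnorm, real_inner_comm]
          ring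
        have h6 : (inner ℝ (a k) w : ℝ) ≤ ρ * ‖w‖ := by
          have := real_inner_le_norm (a k) w
          rwa [hnorm] at this
        have h7 : σ ^ 2 ≤ ‖a j - a k‖ ^ 2 := by gcongr
        have h8 : t ≤ ‖w‖ := by
          rw [ht, div_le_iff₀ (by positivity)]
          rw [hnorm] at hk
          nlinarith
        rw [← Real.exp_add]
        apply Real.exp_le_exp.2
        have h9 : t ^ 2 ≤ ‖w‖ ^ 2 := by gcongr
        nlinarith [Real.pi_pos]
      · rw [Set.indicator_of_notMem hwS, Set.indicator_of_notMem hwH, sub_self, norm_zero]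
        positivity
  have h2 : ‖Hs (a j) - ∫ w : E, S.indicator (gw (a j)) w‖ ≤ Real.exp (-π * t ^ 2) := by
    rw [h1]
    have hint : Integrable (fun w : E => Real.exp (-π * t ^ 2) * Real.exp (-π * ‖w‖ ^ 2)) := by
      have := integrable_rgauss (E := E) π Real.pi_pos 0
      simp only [sub_zero] at this
      exact this.const_mul _
    refine (norm_integral_le_of_norm_le hint (Filter.Eventually.of_forall hpt)).trans ?_
    rw [integral_const_mul, GaussianFourier.integral_rexp_neg_mul_sq_norm Real.pi_pos,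
      div_self Real.pi_ne_zero, Real.one_rpow, mul_one]
  have h3 := norm_sub_norm_le (Hs (a j)) (∫ w : E, S.indicator (gw (a j)) w)
  linarith

end

end Pool.Agent.MP_0a9cf0_an
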