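import Mathlib
import Pool.Agent.MP_0a9cf0_an.Compare

set_option autoImplicit false

namespace Pool.Agent.MP_0a9cf0_an

open Real Complex MeasureTheory Filter Set Topology

/-- The grid points on the sphere of radius `2 M³` in dimension `17`. -/
noncomputable def pt (M : ℕ) (k : Fin 16 → Fin M) : EuclideanSpace ℝ (Fin 17) :=
  WithLp.toLp 2 (Fin.cons (((M : ℝ) ^ 2 / 2) * Real.sqrt (16 * (M : ℝ) ^ 2 - ∑ i, ((k i : ℕ) : ℝ) ^ 2))
    (fun i => ((M : ℝ) ^ 2 / 2) * ((k i : ℕ) : ℝ)))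

theorem sum_sq_le (M : ℕ) (k : Fin 16 → Fin M) :
    ∑ i, ((k i : ℕ) : ℝ) ^ 2 ≤ 16 * (M : ℝ) ^ 2 := by
  calc ∑ i, ((k i : ℕ) : ℝ) ^ 2 ≤ ∑ _i : Fin 16, (M : ℝ) ^ 2 := by
        refine Finset.sum_le_sum fun i _ => ?_
        have : ((k i : ℕ) : ℝ) ≤ M := by exact_mod_cast (k i).2.le
        gcongr
    _ = 16 * (M : ℝ) ^ 2 := by simp

theorem norm_sq_pt (M : ℕ) (k : Fin 16 → Fin M) : ‖pt M k‖ ^ 2 = 4 * (M : ℝ) ^ 6 := by
  unfold pt
  rw [EuclideanSpace.norm_sq_eq, Fin.sum_univ_succ]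
  simp only [Fin.cons_zero, Fin.cons_succ, Real.norm_eq_abs, sq_abs, mul_pow]
  rw [Real.sq_sqrt (by linarith [sum_sq_le M k]), ← Finset.mul_sum]
  ring

theorem norm_pt (M : ℕ) (k : Fin 16 → Fin M) : ‖pt M k‖ = 2 * (M : ℝ) ^ 3 := by
  have h := norm_sq_pt M k
  have h1 : ‖pt M k‖ ^ 2 = (2 * (M : ℝ) ^ 3) ^ 2 := by rw [h]; ring
  exact (sq_eq_sq₀ (norm_nonneg _) (by positivity)).1 h1

theorem sep_pt (M : ℕ) (k l : Fin 16 → Fin M) (h : k ≠ l) :
    (M : ℝ) ^ 2 / 2 ≤ ‖pt M k - pt M l‖ := by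
  obtain ⟨i, hi⟩ := Function.ne_iff.1 h
  have h1 : ‖(pt M k - pt M l) i.succ‖ ≤ ‖pt M k - pt M l‖ := PiLp.norm_apply_le _ _
  refine le_trans ?_ h1
  have h2 : (pt M k - pt M l) i.succ = ((M : ℝ) ^ 2 / 2) * (((k i : ℕ) : ℝ) - ((l i : ℕ) : ℝ)) := by
    rw [PiLp.sub_apply]
    unfold pt
    simp only [Fin.cons_succ]
    ring
  rw [h2, norm_mul, Real.norm_eq_abs, Real.norm_eq_abs, abs_of_nonneg (by positivity)]
  have h3 : (1 : ℝ) ≤ |((k i : ℕ) : ℝ) - ((l i : ℕ) : ℝ)| := by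
    have h4 : ((k i : ℕ) : ℤ) - ((l i : ℕ) : ℤ) ≠ 0 := by
      intro h5
      apply hi
      apply Fin.ext
      omega
    have h5 := Int.one_le_abs h4
    have h6 : ((1 : ℤ) : ℝ) ≤ ((|((k i : ℕ) : ℤ) - ((l i : ℕ) : ℤ)| : ℤ) : ℝ) := by exact_mod_cast h5
    simpa using h6
  have h7 : (0 : ℝ) ≤ (M : ℝ) ^ 2 / 2 := by positivity
  nlinarith

/-- Upper bound for the norm of the superposition. -/
theorem norm_bound (M : ℕ) (hM : 1 ≤ M) :
    ∫ x, ‖superS (fun j : Option (Fin 16 → Fin M) => j.elim 1 (fun _ => 1 / (M : ℝ) ^ 8))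
      (fun j => j.elim 0 (pt M)) x‖ ^ 2 ≤
    (2 + Real.exp (-(π / 8) * (M : ℝ) ^ 4) * (1 + (M : ℝ) ^ 8) ^ 2) *
      gm (EuclideanSpace ℝ (Fin 17)) := by
  classical
  have hM0 : (1 : ℝ) ≤ M := by exact_mod_cast hM
  set c : Option (Fin 16 → Fin M) → ℝ := fun j => j.elim 1 (fun _ => 1 / (M : ℝ) ^ 8) with hc
  set b : Option (Fin 16 → Fin M) → EuclideanSpace ℝ (Fin 17) := fun j => j.elim 0 (pt M) with hb
  have hcnn : ∀ j, 0 ≤ c j := by
    intro j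
    cases j with
    | none => simp [hc]
    | some j => simp only [hc, Option.elim]; positivity
  have hsep : ∀ j k, j ≠ k → (M : ℝ) ^ 2 / 2 ≤ ‖b j - b k‖ := by
    have hbig : (M : ℝ) ^ 2 / 2 ≤ 2 * (M : ℝ) ^ 3 := by
      have : (0 : ℝ) ≤ (M : ℝ) ^ 2 := by positivity
      nlinarith
    intro j k hjk
    cases j with
    | none =>
      cases k with
      | none => exact absurd rfl hjk
      | some k =>
        simp only [hb, Option.elim, zero_sub, norm_neg, norm_pt]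
        exact hbig
    | some j =>
      cases k with
      | none =>
        simp only [hb, Option.elim, sub_zero, norm_pt]
        exact hbig
      | some k =>
        simp only [hb, Option.elim]
        exact sep_pt M j k (fun h => hjk (by rw [h]))
  refine (integral_norm_sq_superS c b hcnn).trans ?_
  have hg := (gm_pos (E := EuclideanSpace ℝ (Fin 17)))
  have hterm : ∀ j k, c j * c k * (Real.exp (-(π / 2) * ‖b j - b k‖ ^ 2) *
      gm (EuclideanSpace ℝ (Fin 17))) ≤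
      ((if j = k then c j * c k else 0) + c j * c k * Real.exp (-(π / 8) * (M : ℝ) ^ 4)) *
        gm (EuclideanSpace ℝ (Fin 17)) := by
    intro j k
    have h1 := hcnn j
    have h2 := hcnn k
    by_cases hjk : j = k
    · subst hjk
      rw [if_pos rfl, sub_self, norm_zero]
      have h3 : 0 ≤ c j * c j * Real.exp (-(π / 8) * (M : ℝ) ^ 4) * gm (EuclideanSpace ℝ (Fin 17)) := by
        positivity
      simp only [ne_eq, OfNat.ofNat_ne_zero, not_false_eq_true, zero_pow, mul_zero, Real.exp_zero,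
        one_mul]
      nlinarith
    · rw [if_neg hjk, zero_add, ← mul_assoc]
      have h3 : Real.exp (-(π / 2) * ‖b j - b k‖ ^ 2) ≤ Real.exp (-(π / 8) * (M : ℝ) ^ 4) := by
        apply Real.exp_le_exp.2
        have h4 := hsep j k hjk
        have h5 : ((M : ℝ) ^ 2 / 2) ^ 2 ≤ ‖b j - b k‖ ^ 2 := by gcongr
        nlinarith [Real.pi_pos]
      gcongr
  calc ∑ j, ∑ k, c j * c k * (Real.exp (-(π / 2) * ‖b j - b k‖ ^ 2) *
      gm (EuclideanSpace ℝ (Fin 17)))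
      ≤ ∑ j, ∑ k, ((if j = k then c j * c k else 0) +
        c j * c k * Real.exp (-(π / 8) * (M : ℝ) ^ 4)) * gm (EuclideanSpace ℝ (Fin 17)) :=
        Finset.sum_le_sum fun j _ => Finset.sum_le_sum fun k _ => hterm j k
    _ = (∑ j, c j * c j + Real.exp (-(π / 8) * (M : ℝ) ^ 4) * (∑ j, c j) ^ 2) *
        gm (EuclideanSpace ℝ (Fin 17)) := by
        simp_rw [← Finset.sum_mul, Finset.sum_add_distrib]
        congr 1
        congr 1
        · simp
        · rw [sq, Finset.sum_mul_sum, Finset.mul_sum]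
          refine Finset.sum_congr rfl fun j _ => ?_
          rw [Finset.mul_sum]
          refine Finset.sum_congr rfl fun k _ => ?_
          ring
    _ = (2 + Real.exp (-(π / 8) * (M : ℝ) ^ 4) * (1 + (M : ℝ) ^ 8) ^ 2) *
      gm (EuclideanSpace ℝ (Fin 17)) := by
        have hMne : (M : ℝ) ≠ 0 := by positivity
        have e1 : ∑ j, c j * c j = 2 := by
          rw [Fintype.sum_option]
          simp only [hc, Option.elim, Finset.sum_const, Finset.card_univ, Fintype.card_pi,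
            Fintype.card_fin, Finset.prod_const, nsmul_eq_mul]
          push_cast
          field_simp
          norm_num
        have e2 : ∑ j, c j = 1 + (M : ℝ) ^ 8 := by
          rw [Fintype.sum_option]
          simp only [hc, Option.elim, Finset.sum_const, Finset.card_univ, Fintype.card_pi,
            Fintype.card_fin, Finset.prod_const, nsmul_eq_mul]
          push_cast
          field_simp
        rw [e1, e2]

theorem exp_small1 (M : ℕ) (hM : 1024 ≤ M) :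
    Real.exp (-π * (((M : ℝ) ^ 2 / 2) ^ 2 / (4 * (2 * (M : ℝ) ^ 3))) ^ 2) ≤ Real.exp (-(M : ℝ)) := by
  apply Real.exp_le_exp.2
  have h1 : (1024 : ℝ) ≤ M := by exact_mod_cast hM
  have h2 : ((M : ℝ) ^ 2 / 2) ^ 2 / (4 * (2 * (M : ℝ) ^ 3)) = M / 32 := by
    have : (M : ℝ) ≠ 0 := by positivity
    field_simp
    norm_num
  rw [h2]
  have h3 : (M : ℝ) ≤ (M / 32) ^ 2 := by nlinarith
  nlinarith [Real.pi_gt_three]

theorem exp_small2 (M : ℕ) (hM : 1024 ≤ M) :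
    Real.exp (-(π / 8) * (M : ℝ) ^ 4) * (1 + (M : ℝ) ^ 8) ^ 2 ≤
      4 * ((M : ℝ) ^ 16 * Real.exp (-(M : ℝ))) := by
  have h1 : (1024 : ℝ) ≤ M := by exact_mod_cast hM
  have h2 : Real.exp (-(π / 8) * (M : ℝ) ^ 4) ≤ Real.exp (-(M : ℝ)) := by
    apply Real.exp_le_exp.2
    have h3 : (1 : ℝ) ≤ M ^ 2 := by nlinarith
    have h4 : (M : ℝ) ^ 2 ≤ M ^ 4 := by
      have : (M : ℝ) ^ 4 = M ^ 2 * M ^ 2 := by ring
      nlinarith
    have h5 : 8 * (M : ℝ) ≤ M ^ 2 := by nlinarith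
    nlinarith [Real.pi_gt_three]
  have h3 : (1 + (M : ℝ) ^ 8) ^ 2 ≤ 4 * (M : ℝ) ^ 16 := by
    have h4 : (1 : ℝ) ≤ (M : ℝ) ^ 8 := one_le_pow₀ (by linarith)
    have h5 : (M : ℝ) ^ 16 = (M : ℝ) ^ 8 * (M : ℝ) ^ 8 := by ring
    nlinarith
  calc Real.exp (-(π / 8) * (M : ℝ) ^ 4) * (1 + (M : ℝ) ^ 8) ^ 2
      ≤ Real.exp (-(M : ℝ)) * (4 * (M : ℝ) ^ 16) := by gcongr
    _ = 4 * ((M : ℝ) ^ 16 * Real.exp (-(M : ℝ))) := by ring

theorem main_contra (C : ℝ)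
    (h : ∀ (u : SchwartzMap (EuclideanSpace ℝ (Fin 17)) ℂ)
        (K : Set (EuclideanSpace ℝ (Fin 17) × EuclideanSpace ℝ (Fin 17))),
        Convex ℝ K →
          (∫ p in K, ∫ y : EuclideanSpace ℝ (Fin 17),
              Complex.exp (-(2 * (Real.pi : ℂ) * Complex.I * ((inner ℝ y p.2 : ℝ) : ℂ)))
                * u (p.1 + (1/2 : ℝ) • y)
                * starRingEnd ℂ (u (p.1 - (1/2 : ℝ) • y))).re
            ≤ C * ∫ x : EuclideanSpace ℝ (Fin 17), ‖u x‖ ^ 2) : False := by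
  classical
  obtain ⟨c, hc, ρ₀, hρ₀, hHs⟩ := Hs_lower 16
  set g := gm (EuclideanSpace ℝ (Fin 17)) with hg
  have hgpos : 0 < g := gm_pos
  set κ := cc (EuclideanSpace ℝ (Fin 17)) with hκ
  have hκpos : 0 < κ := cc_pos
  have hnat : Tendsto (fun M : ℕ => (M : ℝ)) atTop atTop := tendsto_natCast_atTop_atTop
  have e1 : ∀ᶠ M : ℕ in atTop, (M : ℝ) ^ 3 * Real.exp (-(M : ℝ)) < c / 4 :=
    ((Real.tendsto_pow_mul_exp_neg_atTop_nhds_zero 3).comp hnat).eventually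
      (gt_mem_nhds (by positivity))
  have e2 : ∀ᶠ M : ℕ in atTop, (M : ℝ) ^ 16 * Real.exp (-(M : ℝ)) < 1 / 4 :=
    ((Real.tendsto_pow_mul_exp_neg_atTop_nhds_zero 16).comp hnat).eventually
      (gt_mem_nhds (by positivity))
  have e3 : ∀ᶠ M : ℕ in atTop, ρ₀ ≤ (M : ℝ) := hnat.eventually_ge_atTop _
  have e4 : ∀ᶠ M : ℕ in atTop, 3 * |C| * g / (κ * c ^ 2 / 16) + 1 ≤ (M : ℝ) :=
    hnat.eventually_ge_atTop _
  obtain ⟨M, ⟨⟨⟨h1, h2⟩, h3⟩, h4⟩, h5⟩ :=
    ((((e1.and e2).and e3).and e4).and (eventually_ge_atTop 1024)).exists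
  have hM1 : (1024 : ℝ) ≤ M := by exact_mod_cast h5
  have hMpos : (0 : ℝ) < M := by linarith
  have hM3 : (M : ℝ) ≤ 2 * (M : ℝ) ^ 3 := by
    have : (1 : ℝ) ≤ (M : ℝ) ^ 2 := by nlinarith
    nlinarith
  -- lower bound for each FA
  have hFA : ∀ k : Fin 16 → Fin M,
      c / (4 * (M : ℝ) ^ 3) ≤ ‖FA (polyA (pt M)) ((1/2 : ℝ) • pt M k) (pt M k)‖ := by
    intro k
    have h6 := FA_lower (pt M) (2 * (M : ℝ) ^ 3) ((M : ℝ) ^ 2 / 2) (by positivity) (by positivity)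
      (norm_pt M) (fun j k hjk => sep_pt M j k hjk) k
    have h7 := hHs (pt M k) (by rw [norm_pt]; linarith)
    rw [norm_pt] at h7
    have h8 := exp_small1 M h5
    have h9 : Real.exp (-(M : ℝ)) ≤ c / (4 * (M : ℝ) ^ 3) := by
      rw [le_div_iff₀ (by positivity)]
      nlinarith
    have h10 : c / (2 * (M : ℝ) ^ 3) = 2 * (c / (4 * (M : ℝ) ^ 3)) := by
      field_simp
      norm_num
    linarith
  have hlow := super_lower (1 / (M : ℝ) ^ 8) (by positivity) (pt M) (polyA (pt M)) (2 * M ^ 6)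
    (fun k => by rw [norm_sq_pt]; push_cast; ring)
  have hup := norm_bound M (by omega)
  have hineq := h (superS (fun j : Option (Fin 16 → Fin M) => j.elim 1 (fun _ => 1 / (M : ℝ) ^ 8))
      (fun j => j.elim 0 (pt M))) (polyA (pt M) ×ˢ polyA (pt M))
      ((convex_polyA _).prod (convex_polyA _))
  have hsum : (M : ℝ) ^ 16 * (c / (4 * (M : ℝ) ^ 3)) ^ 2 ≤
      ∑ k : Fin 16 → Fin M, ‖FA (polyA (pt M)) ((1/2 : ℝ) • pt M k) (pt M k)‖ ^ 2 := by
    have h6 : ∑ _k : Fin 16 → Fin M, (c / (4 * (M : ℝ) ^ 3)) ^ 2 =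
        (M : ℝ) ^ 16 * (c / (4 * (M : ℝ) ^ 3)) ^ 2 := by
      simp only [Finset.sum_const, Finset.card_univ, Fintype.card_pi,
            Fintype.card_fin, Finset.prod_const, nsmul_eq_mul]
      push_cast
      rfl
    rw [← h6]
    refine Finset.sum_le_sum fun k _ => ?_
    have := hFA k
    gcongr
  have hval : 1 / (M : ℝ) ^ 8 * (κ * ((M : ℝ) ^ 16 * (c / (4 * (M : ℝ) ^ 3)) ^ 2)) =
      (κ * c ^ 2 / 16) * (M : ℝ) ^ 2 := by
    field_simp
    norm_num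
  have hL : (κ * c ^ 2 / 16) * (M : ℝ) ^ 2 ≤
      1 / (M : ℝ) ^ 8 * (κ * ∑ k : Fin 16 → Fin M,
        ‖FA (polyA (pt M)) ((1/2 : ℝ) • pt M k) (pt M k)‖ ^ 2) := by
    rw [← hval]
    gcongr
  have hU : ∫ x, ‖superS (fun j : Option (Fin 16 → Fin M) => j.elim 1 (fun _ => 1 / (M : ℝ) ^ 8))
      (fun j => j.elim 0 (pt M)) x‖ ^ 2 ≤ 3 * g := by
    refine hup.trans ?_
    have h6 := exp_small2 M h5
    rw [← hg]
    have : Real.exp (-(π / 8) * (M : ℝ) ^ 4) * (1 + (M : ℝ) ^ 8) ^ 2 ≤ 1 := by linarith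
    nlinarith
  have hU0 : 0 ≤ ∫ x, ‖superS (fun j : Option (Fin 16 → Fin M) =>
      j.elim 1 (fun _ => 1 / (M : ℝ) ^ 8)) (fun j => j.elim 0 (pt M)) x‖ ^ 2 :=
    integral_nonneg fun x => by positivity
  have hfin : (κ * c ^ 2 / 16) * (M : ℝ) ^ 2 ≤ |C| * (3 * g) := by
    calc (κ * c ^ 2 / 16) * (M : ℝ) ^ 2 ≤ _ := hL
      _ ≤ _ := hlow
      _ ≤ _ := hineq
      _ ≤ |C| * ∫ x, ‖superS (fun j : Option (Fin 16 → Fin M) =>
          j.elim 1 (fun _ => 1 / (M : ℝ) ^ 8)) (fun j => j.elim 0 (pt M)) x‖ ^ 2 := by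
          gcongr
          exact le_abs_self C
      _ ≤ |C| * (3 * g) := by gcongr
  have hden : 0 < κ * c ^ 2 / 16 := by positivity
  have h6 : 3 * |C| * g / (κ * c ^ 2 / 16) < (M : ℝ) := by linarith
  rw [div_lt_iff₀ hden] at h6
  have h7 : (M : ℝ) ≤ (M : ℝ) ^ 2 := by nlinarith
  nlinarith

end Pool.Agent.MP_0a9cf0_an
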