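import Mathlib
import Pool.Agent.MP_0a9cf0_an.Compare

set_option autoImplicit false

namespace Pool.Agent.MP_0a9cf0_an.GridAll

open Real Complex MeasureTheory Filter Set Topology

open Pool.Agent.MP_0a9cf0_an

/-- The grid points on the sphere of radius `2 √n M ^ 17` in dimension `n + 1`. -/
noncomputable def pt (n M : ℕ) (k : Fin n → Fin (M ^ 8)) : EuclideanSpace ℝ (Fin (n + 1)) :=
  WithLp.toLp 2 (Fin.cons ((2 * (M : ℝ) ^ 9) *
      Real.sqrt (n * (M : ℝ) ^ 16 - ∑ i, ((k i : ℕ) : ℝ) ^ 2))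
    (fun i => (2 * (M : ℝ) ^ 9) * ((k i : ℕ) : ℝ)))

theorem sum_sq_le (n M : ℕ) (k : Fin n → Fin (M ^ 8)) :
    ∑ i, ((k i : ℕ) : ℝ) ^ 2 ≤ n * (M : ℝ) ^ 16 := by
  calc ∑ i, ((k i : ℕ) : ℝ) ^ 2 ≤ ∑ _i : Fin n, (M : ℝ) ^ 16 := by
        refine Finset.sum_le_sum fun i _ => ?_
        have h1 : ((k i : ℕ) : ℝ) ≤ (M : ℝ) ^ 8 := by exact_mod_cast (k i).2.le
        calc ((k i : ℕ) : ℝ) ^ 2 ≤ ((M : ℝ) ^ 8) ^ 2 := by gcongr
          _ = (M : ℝ) ^ 16 := by ring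
    _ = n * (M : ℝ) ^ 16 := by simp

theorem norm_sq_pt (n M : ℕ) (k : Fin n → Fin (M ^ 8)) :
    ‖pt n M k‖ ^ 2 = 4 * n * (M : ℝ) ^ 34 := by
  unfold pt
  rw [EuclideanSpace.norm_sq_eq, Fin.sum_univ_succ]
  simp only [Fin.cons_zero, Fin.cons_succ, Real.norm_eq_abs, sq_abs, mul_pow]
  rw [Real.sq_sqrt (by linarith [sum_sq_le n M k]), ← Finset.mul_sum]
  ring

theorem norm_pt (n M : ℕ) (k : Fin n → Fin (M ^ 8)) :
    ‖pt n M k‖ = 2 * Real.sqrt n * (M : ℝ) ^ 17 := by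
  have h := norm_sq_pt n M k
  have h1 : ‖pt n M k‖ ^ 2 = (2 * Real.sqrt n * (M : ℝ) ^ 17) ^ 2 := by
    rw [h, mul_pow, mul_pow, Real.sq_sqrt (Nat.cast_nonneg n)]; ring
  exact (sq_eq_sq₀ (norm_nonneg _) (by positivity)).1 h1

theorem sep_pt (n M : ℕ) (k l : Fin n → Fin (M ^ 8)) (h : k ≠ l) :
    2 * (M : ℝ) ^ 9 ≤ ‖pt n M k - pt n M l‖ := by
  obtain ⟨i, hi⟩ := Function.ne_iff.1 h
  have h1 : ‖(pt n M k - pt n M l) i.succ‖ ≤ ‖pt n M k - pt n M l‖ := PiLp.norm_apply_le _ _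
  refine le_trans ?_ h1
  have h2 : (pt n M k - pt n M l) i.succ =
      (2 * (M : ℝ) ^ 9) * (((k i : ℕ) : ℝ) - ((l i : ℕ) : ℝ)) := by
    rw [PiLp.sub_apply]
    unfold pt
    simp only [Fin.cons_succ]
    ring
  rw [h2, norm_mul, Real.norm_eq_abs, Real.norm_eq_abs, abs_of_nonneg (by positivity)]
  have h3 : (1 : ℝ) ≤ |((k i : ℕ) : ℝ) - ((l i : ℕ) : ℝ)| := by
    have h4 : ((k i : ℕ) : ℤ) - ((l i : ℕ) : ℤ) ≠ 0 := by
      intro h5
      apply hi
      apply Fin.ext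
      omega
    have h5 := Int.one_le_abs h4
    have h6 : ((1 : ℤ) : ℝ) ≤ ((|((k i : ℕ) : ℤ) - ((l i : ℕ) : ℤ)| : ℤ) : ℝ) := by exact_mod_cast h5
    simpa using h6
  have h7 : (0 : ℝ) ≤ 2 * (M : ℝ) ^ 9 := by positivity
  nlinarith

/-- Upper bound for the norm of the superposition. -/
theorem norm_bound (n M : ℕ) (hn : 1 ≤ n) (hM : 1 ≤ M) :
    ∫ x, ‖superS (fun j : Option (Fin n → Fin (M ^ 8)) => j.elim 1 (fun _ => 1 / (M : ℝ) ^ (4 * n)))
      (fun j => j.elim 0 (pt n M)) x‖ ^ 2 ≤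
    (2 + Real.exp (-(2 * π) * (M : ℝ) ^ 18) * (1 + (M : ℝ) ^ (4 * n)) ^ 2) *
      gm (EuclideanSpace ℝ (Fin (n + 1))) := by
  classical
  have hM0 : (1 : ℝ) ≤ M := by exact_mod_cast hM
  set c : Option (Fin n → Fin (M ^ 8)) → ℝ := fun j => j.elim 1 (fun _ => 1 / (M : ℝ) ^ (4 * n))
    with hc
  set b : Option (Fin n → Fin (M ^ 8)) → EuclideanSpace ℝ (Fin (n + 1)) :=
    fun j => j.elim 0 (pt n M) with hb
  have hcnn : ∀ j, 0 ≤ c j := by
    intro j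
    cases j with
    | none => simp [hc]
    | some j => simp only [hc, Option.elim]; positivity
  have hsep : ∀ j k, j ≠ k → 2 * (M : ℝ) ^ 9 ≤ ‖b j - b k‖ := by
    have hbig : 2 * (M : ℝ) ^ 9 ≤ 2 * Real.sqrt n * (M : ℝ) ^ 17 := by
      have h1 : (M : ℝ) ^ 9 ≤ (M : ℝ) ^ 17 := pow_le_pow_right₀ hM0 (by norm_num)
      have h2 : (1 : ℝ) ≤ Real.sqrt n := by
        rw [Real.one_le_sqrt]
        exact_mod_cast hn
      have h3 : (0 : ℝ) ≤ (M : ℝ) ^ 17 := by positivity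
      nlinarith
    intro j k hjk
    cases j with
    | none =>
      cases k with
      | none => exact absurd rfl hjk
      | some k =>
        simp only [hb, Option.elim, zero_sub, norm_neg, norm_pt]
        exact hbig
    | some j =>
      cases k with
      | none =>
        simp only [hb, Option.elim, sub_zero, norm_pt]
        exact hbig
      | some k =>
        simp only [hb, Option.elim]
        exact sep_pt n M j k (fun h => hjk (by rw [h]))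
  refine (integral_norm_sq_superS c b hcnn).trans ?_
  have hg := (gm_pos (E := EuclideanSpace ℝ (Fin (n + 1))))
  have hterm : ∀ j k, c j * c k * (Real.exp (-(π / 2) * ‖b j - b k‖ ^ 2) *
      gm (EuclideanSpace ℝ (Fin (n + 1)))) ≤
      ((if j = k then c j * c k else 0) + c j * c k * Real.exp (-(2 * π) * (M : ℝ) ^ 18)) *
        gm (EuclideanSpace ℝ (Fin (n + 1))) := by
    intro j k
    have h1 := hcnn j
    have h2 := hcnn k
    by_cases hjk : j = k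
    · subst hjk
      rw [if_pos rfl, sub_self, norm_zero]
      have h3 : 0 ≤ c j * c j * Real.exp (-(2 * π) * (M : ℝ) ^ 18) *
          gm (EuclideanSpace ℝ (Fin (n + 1))) := by
        positivity
      simp only [ne_eq, OfNat.ofNat_ne_zero, not_false_eq_true, zero_pow, mul_zero, Real.exp_zero,
        one_mul]
      nlinarith
    · rw [if_neg hjk, zero_add, ← mul_assoc]
      have h3 : Real.exp (-(π / 2) * ‖b j - b k‖ ^ 2) ≤ Real.exp (-(2 * π) * (M : ℝ) ^ 18) := by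
        apply Real.exp_le_exp.2
        have h4 := hsep j k hjk
        have h5 : (2 * (M : ℝ) ^ 9) ^ 2 ≤ ‖b j - b k‖ ^ 2 := by gcongr
        have h6 : (2 * (M : ℝ) ^ 9) ^ 2 = 4 * (M : ℝ) ^ 18 := by ring
        rw [h6] at h5
        nlinarith [Real.pi_pos]
      gcongr
  calc ∑ j, ∑ k, c j * c k * (Real.exp (-(π / 2) * ‖b j - b k‖ ^ 2) *
      gm (EuclideanSpace ℝ (Fin (n + 1))))
      ≤ ∑ j, ∑ k, ((if j = k then c j * c k else 0) +
        c j * c k * Real.exp (-(2 * π) * (M : ℝ) ^ 18)) * gm (EuclideanSpace ℝ (Fin (n + 1))) :=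
        Finset.sum_le_sum fun j _ => Finset.sum_le_sum fun k _ => hterm j k
    _ = (∑ j, c j * c j + Real.exp (-(2 * π) * (M : ℝ) ^ 18) * (∑ j, c j) ^ 2) *
        gm (EuclideanSpace ℝ (Fin (n + 1))) := by
        simp_rw [← Finset.sum_mul, Finset.sum_add_distrib]
        congr 1
        congr 1
        · simp
        · rw [sq, Finset.sum_mul_sum, Finset.mul_sum]
          refine Finset.sum_congr rfl fun j _ => ?_
          rw [Finset.mul_sum]
          refine Finset.sum_congr rfl fun k _ => ?_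
          ring
    _ = (2 + Real.exp (-(2 * π) * (M : ℝ) ^ 18) * (1 + (M : ℝ) ^ (4 * n)) ^ 2) *
      gm (EuclideanSpace ℝ (Fin (n + 1))) := by
        have hMne : (M : ℝ) ≠ 0 := by positivity
        have hcard : (((M ^ 8) ^ n : ℕ) : ℝ) = (M : ℝ) ^ (4 * n) * (M : ℝ) ^ (4 * n) := by
          push_cast
          rw [← pow_mul, ← pow_add]
          congr 1
          ring
        have hP : (M : ℝ) ^ (4 * n) ≠ 0 := by positivity
        have e1 : ∑ j, c j * c j = 2 := by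
          rw [Fintype.sum_option]
          simp only [hc, Option.elim, Finset.sum_const, Finset.card_univ, Fintype.card_pi,
            Fintype.card_fin, Finset.prod_const, nsmul_eq_mul]
          rw [hcard]
          field_simp
          norm_num
        have e2 : ∑ j, c j = 1 + (M : ℝ) ^ (4 * n) := by
          rw [Fintype.sum_option]
          simp only [hc, Option.elim, Finset.sum_const, Finset.card_univ, Fintype.card_pi,
            Fintype.card_fin, Finset.prod_const, nsmul_eq_mul]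
          rw [hcard]
          field_simp
        rw [e1, e2]

theorem exp_small1 (n M : ℕ) (hn : 1 ≤ n) (hM : 2 * n ≤ M) :
    Real.exp (-π * ((2 * (M : ℝ) ^ 9) ^ 2 / (4 * (2 * Real.sqrt n * (M : ℝ) ^ 17))) ^ 2) ≤
      Real.exp (-(M : ℝ)) := by
  apply Real.exp_le_exp.2
  have hn0 : (1 : ℝ) ≤ n := by exact_mod_cast hn
  have h1 : 2 * (n : ℝ) ≤ M := by exact_mod_cast hM
  have hs : (0 : ℝ) < Real.sqrt n := Real.sqrt_pos.2 (by linarith)
  have h2 : ((2 * (M : ℝ) ^ 9) ^ 2 / (4 * (2 * Real.sqrt n * (M : ℝ) ^ 17))) ^ 2 =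
      (M : ℝ) ^ 2 / (4 * n) := by
    have hM0 : (M : ℝ) ≠ 0 := by
      have : (0 : ℝ) < M := by linarith
      exact this.ne'
    have h3 : (2 * (M : ℝ) ^ 9) ^ 2 / (4 * (2 * Real.sqrt n * (M : ℝ) ^ 17)) =
        (M : ℝ) / (2 * Real.sqrt n) := by
      field_simp
      norm_num
    rw [h3, div_pow, mul_pow, Real.sq_sqrt (by linarith)]
    norm_num
  rw [h2]
  have h3 : (M : ℝ) * (4 * n) ≤ π * (M : ℝ) ^ 2 := by
    have h4 : (0 : ℝ) ≤ M := by positivity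
    have h5 : 2 * (M : ℝ) ^ 2 ≤ π * (M : ℝ) ^ 2 := by nlinarith [Real.pi_gt_three, sq_nonneg (M : ℝ)]
    nlinarith
  have h4 : (M : ℝ) ≤ π * ((M : ℝ) ^ 2 / (4 * n)) := by
    rw [← mul_div_assoc, le_div_iff₀ (by linarith)]
    exact h3
  linarith

theorem exp_small2 (n M : ℕ) (hM : 1 ≤ M) :
    Real.exp (-(2 * π) * (M : ℝ) ^ 18) * (1 + (M : ℝ) ^ (4 * n)) ^ 2 ≤
      4 * ((M : ℝ) ^ (8 * n) * Real.exp (-(M : ℝ))) := by
  have h1 : (1 : ℝ) ≤ M := by exact_mod_cast hM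
  have h2 : Real.exp (-(2 * π) * (M : ℝ) ^ 18) ≤ Real.exp (-(M : ℝ)) := by
    apply Real.exp_le_exp.2
    have h3 : (M : ℝ) ≤ (M : ℝ) ^ 18 := le_self_pow₀ h1 (by norm_num)
    nlinarith [Real.pi_gt_three]
  have h3 : (1 + (M : ℝ) ^ (4 * n)) ^ 2 ≤ 4 * (M : ℝ) ^ (8 * n) := by
    have h4 : (1 : ℝ) ≤ (M : ℝ) ^ (4 * n) := one_le_pow₀ h1
    have h5 : (M : ℝ) ^ (8 * n) = (M : ℝ) ^ (4 * n) * (M : ℝ) ^ (4 * n) := by
      rw [← pow_add]; congr 1; ring
    nlinarith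
  calc Real.exp (-(2 * π) * (M : ℝ) ^ 18) * (1 + (M : ℝ) ^ (4 * n)) ^ 2
      ≤ Real.exp (-(M : ℝ)) * (4 * (M : ℝ) ^ (8 * n)) := by gcongr
    _ = 4 * ((M : ℝ) ^ (8 * n) * Real.exp (-(M : ℝ))) := by ring

/-- The superpositions violate every bound, in every dimension `n + 1 ≥ 10`. -/
theorem exists_large (n : ℕ) (hn : 9 ≤ n) (C : ℝ) :
    ∃ (ι : Type) (_ : Fintype ι) (c : ι → ℝ) (a : ι → EuclideanSpace ℝ (Fin (n + 1)))
      (A : Set (EuclideanSpace ℝ (Fin (n + 1)))), Convex ℝ A ∧ IsClosed A ∧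
      C * ∫ x : EuclideanSpace ℝ (Fin (n + 1)), ‖superS c a x‖ ^ 2 <
        (∫ p in A ×ˢ A, ∫ y : EuclideanSpace ℝ (Fin (n + 1)),
              Complex.exp (-(2 * (Real.pi : ℂ) * Complex.I * ((inner ℝ y p.2 : ℝ) : ℂ)))
                * superS c a (p.1 + (1/2 : ℝ) • y)
                * starRingEnd ℂ (superS c a (p.1 - (1/2 : ℝ) • y))).re := by
  classical
  obtain ⟨c, hc, ρ₀, hρ₀, hHs⟩ := Hs_lower n
  set g := gm (EuclideanSpace ℝ (Fin (n + 1))) with hg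
  have hgpos : 0 < g := gm_pos
  set κ := cc (EuclideanSpace ℝ (Fin (n + 1))) with hκ
  have hκpos : 0 < κ := cc_pos
  have hn0 : (0 : ℝ) < n := by
    have : 0 < n := by omega
    exact_mod_cast this
  set s := Real.sqrt n with hs
  have hspos : 0 < s := Real.sqrt_pos.2 hn0
  have hs1 : 1 ≤ s := by
    rw [hs, Real.one_le_sqrt]
    have : 1 ≤ n := by omega
    exact_mod_cast this
  have hs2 : s ^ 2 = n := Real.sq_sqrt hn0.le
  have hnat : Tendsto (fun M : ℕ => (M : ℝ)) atTop atTop := tendsto_natCast_atTop_atTop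
  have e1 : ∀ᶠ M : ℕ in atTop, (M : ℝ) ^ 17 * Real.exp (-(M : ℝ)) < c / (4 * s) :=
    ((Real.tendsto_pow_mul_exp_neg_atTop_nhds_zero 17).comp hnat).eventually
      (gt_mem_nhds (by positivity))
  have e2 : ∀ᶠ M : ℕ in atTop, (M : ℝ) ^ (8 * n) * Real.exp (-(M : ℝ)) < 1 / 4 :=
    ((Real.tendsto_pow_mul_exp_neg_atTop_nhds_zero (8 * n)).comp hnat).eventually
      (gt_mem_nhds (by positivity))
  have e3 : ∀ᶠ M : ℕ in atTop, ρ₀ ≤ (M : ℝ) := hnat.eventually_ge_atTop _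
  have e4 : ∀ᶠ M : ℕ in atTop, 3 * |C| * g / (κ * c ^ 2 / (16 * n)) + 1 ≤ (M : ℝ) :=
    hnat.eventually_ge_atTop _
  obtain ⟨M, ⟨⟨⟨h1, h2⟩, h3⟩, h4⟩, h5⟩ :=
    ((((e1.and e2).and e3).and e4).and (eventually_ge_atTop (2 * n))).exists
  have hM0 : 1 ≤ M := by omega
  have hM1 : (1 : ℝ) ≤ M := by exact_mod_cast hM0
  have hMpos : (0 : ℝ) < M := by linarith
  have hM3 : (M : ℝ) ≤ 2 * s * (M : ℝ) ^ 17 := by
    have : (M : ℝ) ≤ (M : ℝ) ^ 17 := le_self_pow₀ hM1 (by norm_num)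
    nlinarith
  -- lower bound for each FA
  have hFA : ∀ k : Fin n → Fin (M ^ 8),
      c / (4 * s * (M : ℝ) ^ 17) ≤
        ‖FA (polyA (pt n M)) ((1/2 : ℝ) • pt n M k) (pt n M k)‖ := by
    intro k
    have h6 := FA_lower (pt n M) (2 * s * (M : ℝ) ^ 17) (2 * (M : ℝ) ^ 9) (by positivity)
      (by positivity) (norm_pt n M) (fun j k hjk => sep_pt n M j k hjk) k
    have h7 := hHs (pt n M k) (by rw [norm_pt]; linarith)
    rw [norm_pt] at h7
    have h8 := exp_small1 n M (by omega) h5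
    have h9 : Real.exp (-(M : ℝ)) ≤ c / (4 * s * (M : ℝ) ^ 17) := by
      rw [le_div_iff₀ (by positivity)]
      rw [lt_div_iff₀ (by positivity)] at h1
      nlinarith
    have h10 : c / (2 * s * (M : ℝ) ^ 17) = 2 * (c / (4 * s * (M : ℝ) ^ 17)) := by
      field_simp
      norm_num
    linarith
  have hlow := super_lower (1 / (M : ℝ) ^ (4 * n)) (by positivity) (pt n M) (polyA (pt n M))
    (2 * n * M ^ 34) (fun k => by rw [norm_sq_pt]; push_cast; ring)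
  have hup := norm_bound n M (by omega) hM0
  refine ⟨Option (Fin n → Fin (M ^ 8)), inferInstance,
    (fun j => j.elim 1 (fun _ => 1 / (M : ℝ) ^ (4 * n))), (fun j => j.elim 0 (pt n M)),
    polyA (pt n M), convex_polyA _, isClosed_polyA _, ?_⟩
  refine lt_of_lt_of_le ?_ hlow
  have hcard : (((M ^ 8) ^ n : ℕ) : ℝ) = (M : ℝ) ^ (4 * n) * (M : ℝ) ^ (4 * n) := by
    push_cast
    rw [← pow_mul, ← pow_add]
    congr 1
    ring
  have hsum : (M : ℝ) ^ (4 * n) * (M : ℝ) ^ (4 * n) * (c / (4 * s * (M : ℝ) ^ 17)) ^ 2 ≤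
      ∑ k : Fin n → Fin (M ^ 8), ‖FA (polyA (pt n M)) ((1/2 : ℝ) • pt n M k) (pt n M k)‖ ^ 2 := by
    have h6 : ∑ _k : Fin n → Fin (M ^ 8), (c / (4 * s * (M : ℝ) ^ 17)) ^ 2 =
        (M : ℝ) ^ (4 * n) * (M : ℝ) ^ (4 * n) * (c / (4 * s * (M : ℝ) ^ 17)) ^ 2 := by
      simp only [Finset.sum_const, Finset.card_univ, Fintype.card_pi,
            Fintype.card_fin, Finset.prod_const, nsmul_eq_mul]
      rw [hcard]
    rw [← h6]
    refine Finset.sum_le_sum fun k _ => ?_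
    have := hFA k
    gcongr
  have hpow : (M : ℝ) ^ 36 ≤ (M : ℝ) ^ (4 * n) := pow_le_pow_right₀ hM1 (by omega)
  have hval : (κ * c ^ 2 / (16 * n)) * (M : ℝ) ^ 2 ≤
      1 / (M : ℝ) ^ (4 * n) * (κ * ((M : ℝ) ^ (4 * n) * (M : ℝ) ^ (4 * n) *
        (c / (4 * s * (M : ℝ) ^ 17)) ^ 2)) := by
    have hP : (M : ℝ) ^ (4 * n) ≠ 0 := by positivity
    have e5 : 1 / (M : ℝ) ^ (4 * n) * (κ * ((M : ℝ) ^ (4 * n) * (M : ℝ) ^ (4 * n) *
        (c / (4 * s * (M : ℝ) ^ 17)) ^ 2)) =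
        (κ * c ^ 2 / (16 * s ^ 2)) * ((M : ℝ) ^ (4 * n) / (M : ℝ) ^ 34) := by
      field_simp
      norm_num
    rw [e5, hs2]
    have e6 : (M : ℝ) ^ 2 ≤ (M : ℝ) ^ (4 * n) / (M : ℝ) ^ 34 := by
      rw [le_div_iff₀ (by positivity), ← pow_add]
      exact hpow
    gcongr
  have hL : (κ * c ^ 2 / (16 * n)) * (M : ℝ) ^ 2 ≤
      1 / (M : ℝ) ^ (4 * n) * (κ * ∑ k : Fin n → Fin (M ^ 8),
        ‖FA (polyA (pt n M)) ((1/2 : ℝ) • pt n M k) (pt n M k)‖ ^ 2) := by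
    refine hval.trans ?_
    gcongr
  refine lt_of_lt_of_le ?_ hL
  have hU : ∫ x, ‖superS (fun j : Option (Fin n → Fin (M ^ 8)) =>
      j.elim 1 (fun _ => 1 / (M : ℝ) ^ (4 * n)))
      (fun j => j.elim 0 (pt n M)) x‖ ^ 2 ≤ 3 * g := by
    refine hup.trans ?_
    have h6 := exp_small2 n M hM0
    rw [← hg]
    have : Real.exp (-(2 * π) * (M : ℝ) ^ 18) * (1 + (M : ℝ) ^ (4 * n)) ^ 2 ≤ 1 := by linarith
    nlinarith
  have hU0 : 0 ≤ ∫ x, ‖superS (fun j : Option (Fin n → Fin (M ^ 8)) =>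
      j.elim 1 (fun _ => 1 / (M : ℝ) ^ (4 * n))) (fun j => j.elim 0 (pt n M)) x‖ ^ 2 :=
    integral_nonneg fun x => by positivity
  have hden : 0 < κ * c ^ 2 / (16 * n) := by positivity
  have h6 : 3 * |C| * g / (κ * c ^ 2 / (16 * n)) < (M : ℝ) := by linarith
  rw [div_lt_iff₀ hden] at h6
  have h7 : (M : ℝ) ≤ (M : ℝ) ^ 2 := by nlinarith
  calc C * ∫ x, ‖superS (fun j : Option (Fin n → Fin (M ^ 8)) =>
          j.elim 1 (fun _ => 1 / (M : ℝ) ^ (4 * n))) (fun j => j.elim 0 (pt n M)) x‖ ^ 2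
      ≤ |C| * ∫ x, ‖superS (fun j : Option (Fin n → Fin (M ^ 8)) =>
          j.elim 1 (fun _ => 1 / (M : ℝ) ^ (4 * n))) (fun j => j.elim 0 (pt n M)) x‖ ^ 2 := by
          gcongr
          exact le_abs_self C
    _ ≤ |C| * (3 * g) := by gcongr
    _ < (κ * c ^ 2 / (16 * n)) * (M : ℝ) ^ 2 := by nlinarith

end Pool.Agent.MP_0a9cf0_an.GridAll
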